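import Mathlib

/-!
# The Perron-Wiener-Brelot Dirichlet problem, `B`-regular and `lB`-regular boundary points

All notions are stated for a finite dimensional real inner product space `E` (such as `ℝ^n`) with
its Lebesgue measure.
-/

set_option autoImplicit false

open MeasureTheory Metric Set Filter Topology

namespace Pool.Agent.Lib.MP_1ca924_an

variable {E : Type*} [NormedAddCommGroup E] [InnerProductSpace ℝ E] [FiniteDimensional ℝ E]
  [MeasurableSpace E] [BorelSpace E]

/-- `u` is hyperharmonic on `Ω` (superharmonic, the value `+∞` being allowed everywhere):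
it is lower semicontinuous on `Ω`, never takes the value `-∞` on `Ω`, and for every closed ball
contained in `Ω` its volume mean over the ball is at most its value at the centre.  The mean
inequality is written with the nonnegative function `u - c`, for every real lower bound `c` of `u`
on the ball (such a `c` exists, since `u` is lower semicontinuous and `> -∞` on the ball). -/
def Hyperharmonic (Ω : Set E) (u : E → EReal) : Prop :=
  LowerSemicontinuousOn u Ω ∧ (∀ x ∈ Ω, ⊥ < u x) ∧
    ∀ (x : E) (r : ℝ), 0 < r → closedBall x r ⊆ Ω →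
      ∀ c : ℝ, (∀ z ∈ closedBall x r, (c : EReal) ≤ u z) →
        ∫⁻ z in closedBall x r, (u z - c).toENNReal
          ≤ (u x - c).toENNReal * volume (closedBall x r)

/-- The upper class of the boundary function `f` (only the values of `f` on `∂Ω` matter): all
hyperharmonic functions on `Ω` which are bounded below and whose lower limit at every boundary
point `ζ` is at least `f ζ`. -/
def UpperClass (Ω : Set E) (f : E → EReal) : Set (E → EReal) :=
  {u | Hyperharmonic Ω u ∧ (∃ c : ℝ, ∀ x ∈ Ω, (c : EReal) ≤ u x) ∧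
    ∀ ζ ∈ frontier Ω, f ζ ≤ liminf u (𝓝[Ω] ζ)}

/-- The upper Perron-Wiener-Brelot solution for the boundary function `f`. -/
noncomputable def upperSol (Ω : Set E) (f : E → EReal) (x : E) : EReal :=
  ⨅ u ∈ UpperClass Ω f, u x

/-- The lower Perron-Wiener-Brelot solution for the boundary function `f`. -/
noncomputable def lowerSol (Ω : Set E) (f : E → EReal) (x : E) : EReal :=
  - upperSol Ω (fun ζ => - f ζ) x

/-- `f` is resolutive for `Ω`, with Perron-Wiener-Brelot solution `h`: the upper and lower
solutions coincide on `Ω` with the (real valued) function `h`, which is harmonic on `Ω`. -/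
def IsPWBSolution (Ω : Set E) (f : E → EReal) (h : E → ℝ) : Prop :=
  InnerProductSpace.HarmonicOnNhd h Ω ∧
    ∀ x ∈ Ω, upperSol Ω f x = (h x : EReal) ∧ lowerSol Ω f x = (h x : EReal)

/-- `y` is `B`-regular for `Ω`: whenever `f` is resolutive and bounded on `B(y,R) ∩ ∂Ω` for some
`R > 0`, its solution `h` is bounded on `B(y,r) ∩ Ω` for some `r > 0`. -/
def BRegular (Ω : Set E) (y : E) : Prop :=
  ∀ (f : E → EReal) (h : E → ℝ), IsPWBSolution Ω f h →
    (∃ R > 0, ∃ M : ℝ, ∀ ζ ∈ ball y R ∩ frontier Ω, ((-M : ℝ) : EReal) ≤ f ζ ∧ f ζ ≤ (M : EReal)) →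
      ∃ r > 0, ∃ C : ℝ, ∀ x ∈ ball y r ∩ Ω, |h x| ≤ C

/-- `y` is `lB`-regular for `Ω`: there are radii `r m > 0` tending to `0` such that `y` is
`B`-regular for every `B(y, r m) ∩ Ω`. -/
def LBRegular (Ω : Set E) (y : E) : Prop :=
  ∃ r : ℕ → ℝ, (∀ m, 0 < r m) ∧ Tendsto r atTop (𝓝 0) ∧ ∀ m, BRegular (ball y (r m) ∩ Ω) y

end Pool.Agent.Lib.MP_1ca924_an
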