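import Pool.Agent.Lib.MP_1ca924_an.Key

/-! # The planar domain and the proof that `0` is `B`-regular -/

set_option autoImplicit false
set_option linter.unusedSectionVars false

open MeasureTheory Metric Set Filter Topology

namespace Pool.Agent.Lib.MP_1ca924_an

/-- The opening parameters `16, 32, 64, ...`. -/
def nj (j : ℕ) : ℕ := 2 ^ (j + 4)

lemma nj_ge (j : ℕ) : 16 ≤ nj j := by
  unfold nj
  calc 16 = 2 ^ 4 := by norm_num
    _ ≤ 2 ^ (j + 4) := Nat.pow_le_pow_right (by norm_num) (by omega)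

lemma nj_four (j : ℕ) : 4 ≤ nj j := le_trans (by norm_num) (nj_ge j)

lemma two_mul_nj_le {i j : ℕ} (h : i < j) : 2 * nj i ≤ nj j := by
  unfold nj
  calc 2 * 2 ^ (i + 4) = 2 ^ (i + 1 + 4) := by ring
    _ ≤ 2 ^ (j + 4) := Nat.pow_le_pow_right (by norm_num) (by omega)

/-- The planar domain: a disc with infinitely many thin sectors with common vertex `0`. -/
def Om : Set ℂ := ball 2 1 ∪ ⋃ j : ℕ, reg (nj j)

lemma isOpen_Om : IsOpen Om :=
  isOpen_ball.union (isOpen_iUnion fun j => isOpen_reg (nj_four j))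

lemma reg_subset_Om (j : ℕ) : reg (nj j) ⊆ Om :=
  (subset_iUnion (fun j => reg (nj j)) j).trans subset_union_right

lemma isBounded_Om : Bornology.IsBounded Om := by
  apply (isBounded_ball (x := (0:ℂ)) (r := 4)).subset
  rintro z (hz | hz)
  · rw [mem_ball_zero_iff]
    have h1 : ‖z - 2‖ < 1 := by simpa [dist_eq_norm] using hz
    calc ‖z‖ = ‖(z - 2) + 2‖ := by ring_nf
      _ ≤ ‖z - 2‖ + ‖(2:ℂ)‖ := norm_add_le _ _
      _ < 4 := by
        have : ‖(2:ℂ)‖ = 2 := by simp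
        linarith
  · rw [mem_iUnion] at hz
    obtain ⟨j, hj⟩ := hz
    have := hj.2
    rw [mem_ball_zero_iff] at this ⊢
    linarith

lemma two_mem_Om : (2 : ℂ) ∈ Om := Or.inl (mem_ball_self one_pos)

lemma norm_ge_one_of_mem_ball {z : ℂ} (hz : z ∈ ball (2:ℂ) 1) : 1 < ‖z‖ := by
  have h1 : ‖z - 2‖ < 1 := by simpa [dist_eq_norm] using hz
  have h2 : ‖(2:ℂ)‖ ≤ ‖z‖ + ‖z - 2‖ := by
    calc ‖(2:ℂ)‖ = ‖z - (z - 2)‖ := by ring_nf
      _ ≤ _ := norm_sub_le _ _
  have : ‖(2:ℂ)‖ = 2 := by simp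
  linarith

lemma mem_Om_iff {z : ℂ} (hz : ‖z‖ < 1) : z ∈ Om ↔ ∃ j, z ∈ sec (nj j) := by
  constructor
  · rintro (h | h)
    · exact absurd (norm_ge_one_of_mem_ball h) (by linarith)
    · rw [mem_iUnion] at h
      obtain ⟨j, hj⟩ := h
      exact ⟨j, hj.1⟩
  · rintro ⟨j, hj⟩
    exact reg_subset_Om j ⟨hj, by rw [mem_ball_zero_iff]; linarith⟩

lemma sec_disjoint {i j : ℕ} {z : ℂ} (hi : z ∈ sec (nj i)) (hj : z ∈ sec (nj j)) : i = j := by
  by_contra hne
  rcases lt_or_gt_of_ne hne with h | h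
  · have h1 := two_mul_nj_le h
    have h2 : (2 : ℝ) * nj i ≤ nj j := by exact_mod_cast h1
    have hpos : (0 : ℝ) < nj i := by have := nj_ge i; positivity
    have h3 : 2 * Real.pi / nj j ≤ Real.pi / nj i := by
      rw [div_le_div_iff₀ (by linarith) hpos]
      nlinarith [Real.pi_pos]
    linarith [hi.1, hj.2]
  · have h1 := two_mul_nj_le h
    have h2 : (2 : ℝ) * nj j ≤ nj i := by exact_mod_cast h1
    have hpos : (0 : ℝ) < nj j := by have := nj_ge j; positivity
    have h3 : 2 * Real.pi / nj i ≤ Real.pi / nj j := by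
      rw [div_le_div_iff₀ (by linarith) hpos]
      nlinarith [Real.pi_pos]
    linarith [hj.1, hi.2]

lemma frontier_sec_subset {j : ℕ} {ζ : ℂ} (hζ : ζ ∈ frontier (sec (nj j))) (hn : ‖ζ‖ < 1) :
    ζ ∈ frontier Om := by
  have ho := isOpen_sec (nj_four j)
  rw [ho.frontier_eq] at hζ
  rw [isOpen_Om.frontier_eq]
  obtain ⟨hcl, hns⟩ := hζ
  constructor
  · rw [mem_closure_iff_nhds] at hcl ⊢
    intro t ht
    have hb : ball (0:ℂ) 1 ∈ 𝓝 ζ := isOpen_ball.mem_nhds (by rw [mem_ball_zero_iff]; exact hn)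
    obtain ⟨w, hw1, hw2⟩ := hcl _ (inter_mem ht hb)
    refine ⟨w, hw1.1, ?_⟩
    have hw3 : ‖w‖ < 1 := by simpa using hw1.2
    exact (mem_Om_iff hw3).2 ⟨j, hw2⟩
  · intro hmem
    obtain ⟨i, hi⟩ := (mem_Om_iff hn).1 hmem
    have hoi := isOpen_sec (nj_four i)
    obtain ⟨w, hw1, hw2⟩ := (mem_closure_iff_nhds.1 hcl) _ (hoi.mem_nhds hi)
    have := sec_disjoint hw1 hw2
    subst this
    exact hns hi

lemma sq_le_two_pow {n : ℕ} (hn : 4 ≤ n) : n ^ 2 ≤ 2 ^ n := by
  induction n, hn using Nat.le_induction with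
  | base => norm_num
  | succ n hn ih =>
    calc (n + 1) ^ 2 = n ^ 2 + 2 * n + 1 := by ring
      _ ≤ n ^ 2 + n ^ 2 := by nlinarith
      _ ≤ 2 ^ n + 2 ^ n := by omega
      _ = 2 ^ (n + 1) := by ring

/-- The heart of the `B`-regularity of `0`. -/
theorem core {u v : ℂ → EReal} {R M A : ℝ} (hR : 0 < R) (hM : 0 ≤ M)
    (hu : Hyperharmonic Om u) (hu0 : ∀ z ∈ Om, 0 ≤ u z) (huA : u 2 = (A : EReal))
    (hv : Hyperharmonic Om v) (huv : ∀ z ∈ Om, 0 ≤ u z + v z)
    (hwall : ∀ ζ ∈ frontier Om, ‖ζ‖ < R → ∀ ε : ℝ, 0 < ε →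
      ∀ᶠ z in 𝓝[Om] ζ, ((-M - ε : ℝ) : EReal) < v z)
    {z : ℂ} (hz : z ∈ Om) (hzr : ‖z‖ < (min (R / 2) (1 / 2)) ^ 2 / 5) :
    ((-(M + 512 * A) : ℝ) : EReal) ≤ v z := by
  set τ : ℝ := min (R / 2) (1 / 2) with hτdef
  have hτ : 0 < τ := lt_min (by linarith) (by norm_num)
  have hτ1 : τ ≤ 1 / 2 := min_le_right _ _
  have hτR : τ ≤ R / 2 := min_le_left _ _
  have hzτ : ‖z‖ ≤ τ / 2 := by nlinarith
  obtain ⟨j, hj⟩ := (mem_Om_iff (by linarith)).1 hz
  set n := nj j with hn
  have hn16 : 16 ≤ n := nj_ge j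
  have hn4 : 4 ≤ n := nj_four j
  have hA0 : 0 ≤ A := by
    have := hu0 2 two_mem_Om
    rw [huA] at this
    exact_mod_cast this
  have hsub : reg n ⊆ Om := reg_subset_Om j
  have hkey : ∀ z' ∈ ball (zstar n) (1 / (4 * n)),
      0 ≤ (M : EReal) + ((32 * (1 / 2) ^ n : ℝ) : EReal) * u z' + v z := by
    intro z' hz'
    have hz's := ball_zstar_subset hn4 hz'
    obtain ⟨h2, h1, h3⟩ := near_zstar hn4 hz'
    have hz'r : z' ∈ reg n := ⟨hz's, by rw [mem_ball_zero_iff]; linarith⟩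
    have h4 := key_estimate hn16 hτ hτ1 hM (hu.mono hsub) (fun w hw => hu0 w (hsub hw))
      (hv.mono hsub) (fun w hw => huv w (hsub hw))
      (fun ζ hζ hζτ ε hε => by
        have h5 := hwall ζ (frontier_sec_subset hζ (by linarith)) (by linarith) ε hε
        exact nhdsWithin_mono ζ hsub h5) hj hzτ hz's h1 h2 h3
    have hcoef : (32 * (‖z‖ * ‖z'‖ / τ ^ 2) ^ n : ℝ) ≤ 32 * (1 / 2) ^ n := by
      apply mul_le_mul_of_nonneg_left _ (by norm_num)
      apply pow_le_pow_left₀ (by positivity)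
      rw [div_le_iff₀ (by positivity)]
      calc ‖z‖ * ‖z'‖ ≤ (τ ^ 2 / 5) * (5 / 2) := by gcongr
        _ = 1 / 2 * τ ^ 2 := by ring
    refine h4.trans ?_
    apply add_le_add _ le_rfl
    apply add_le_add le_rfl
    exact mul_le_mul_of_nonneg_right (by exact_mod_cast hcoef) (hu0 z' (hsub hz'r))
  -- now conclude
  have hvz := hv.2.1 z hz
  generalize v z = V at hkey hvz ⊢
  induction V with
  | bot => simp at hvz
  | top => exact le_top
  | coe V =>
    by_contra hcon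
    push Not at hcon
    have hV : V < -(M + 512 * A) := by exact_mod_cast hcon
    set κ : ℝ := 32 * (1 / 2) ^ n with hκ
    have hκ0 : 0 < κ := by positivity
    set B : ℝ := (-V - M) / κ with hB
    have hB0 : 0 < B := div_pos (by nlinarith) hκ0
    have hlow : ∀ z' ∈ ball (zstar n) (1 / (4 * n)), ENNReal.ofReal B ≤ (u z' - (0 : ℝ)).toENNReal := by
      intro z' hz'
      have h1 := hkey z' hz'
      generalize u z' = U at h1
      induction U with
      | bot =>
        rw [EReal.coe_mul_bot_of_pos hκ0] at h1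
        simp at h1
      | top => simp
      | coe U =>
        have h2 : 0 ≤ M + κ * U + V := by exact_mod_cast h1
        rw [← EReal.coe_sub, EReal.real_coe_toENNReal, sub_zero]
        apply ENNReal.ofReal_le_ofReal
        rw [hB, div_le_iff₀ hκ0]
        linarith
    have hcb : closedBall (2:ℂ) (9 / 10) ⊆ Om := by
      intro w hw
      left
      rw [mem_closedBall] at hw
      rw [mem_ball]
      linarith
    have hn16' : (16 : ℝ) ≤ n := by exact_mod_cast hn16
    have hNsub : ball (zstar n) (1 / (4 * n)) ⊆ closedBall (2:ℂ) (9 / 10) := by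
      intro w hw
      rw [mem_closedBall]
      rw [mem_ball] at hw
      have h1 := dist_zstar_two hn16
      have h2 : (1 : ℝ) / (4 * n) ≤ 1 / 64 := by
        apply one_div_le_one_div_of_le <;> linarith
      calc dist w 2 ≤ dist w (zstar n) + dist (zstar n) 2 := dist_triangle _ _ _
        _ ≤ 9 / 10 := by linarith
    have hmean := hu.2.2 2 (9 / 10) (by norm_num) hcb 0 (fun w hw => by
      have := hu0 w (hcb hw)
      exact_mod_cast this)
    have hint : ENNReal.ofReal B * volume (ball (zstar n) (1 / (4 * n)))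
        ≤ ∫⁻ w in closedBall (2:ℂ) (9 / 10), (u w - (0:ℝ)).toENNReal := by
      calc ENNReal.ofReal B * volume (ball (zstar n) (1 / (4 * n)))
          = ∫⁻ w in ball (zstar n) (1 / (4 * n)), ENNReal.ofReal B := by
            rw [setLIntegral_const]
        _ ≤ ∫⁻ w in ball (zstar n) (1 / (4 * n)), (u w - (0:ℝ)).toENNReal :=
            setLIntegral_mono' measurableSet_ball hlow
        _ ≤ _ := lintegral_mono_set hNsub
    have hcomb := hint.trans hmean
    rw [huA, ← EReal.coe_sub, EReal.real_coe_toENNReal, sub_zero, Complex.volume_ball,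
      Complex.volume_closedBall] at hcomb
    have hpi : (NNReal.pi : ENNReal) = ENNReal.ofReal Real.pi := by
      rw [ENNReal.ofReal, Real.toNNReal_of_nonneg Real.pi_pos.le]
      rfl
    rw [hpi, ← ENNReal.ofReal_pow (by positivity), ← ENNReal.ofReal_pow (by norm_num),
      ← ENNReal.ofReal_mul (by positivity), ← ENNReal.ofReal_mul (by positivity),
      ← ENNReal.ofReal_mul (by positivity), ← ENNReal.ofReal_mul hA0,
      ENNReal.ofReal_le_ofReal_iff (by positivity)] at hcomb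
    have hn0 : (0 : ℝ) < n := by linarith
    have h6 : B ≤ 16 * n ^ 2 * A := by
      have h7 : B * (1 / (4 * n)) ^ 2 ≤ A * (9 / 10) ^ 2 := by
        have hπ := Real.pi_pos
        have h8 : (B * (1 / (4 * n)) ^ 2) * Real.pi ≤ (A * (9 / 10) ^ 2) * Real.pi := by
          calc (B * (1 / (4 * n)) ^ 2) * Real.pi = B * ((1 / (4 * n)) ^ 2 * Real.pi) := by ring
            _ ≤ A * ((9 / 10) ^ 2 * Real.pi) := hcomb
            _ = _ := by ring
        exact le_of_mul_le_mul_right h8 hπ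
      have h9 : B * (1 / (4 * n)) ^ 2 = B / (16 * n ^ 2) := by field_simp; ring
      rw [h9, div_le_iff₀ (by positivity)] at h7
      nlinarith [mul_nonneg hA0 (sq_nonneg (n:ℝ))]
    have hsq : (n : ℝ) ^ 2 ≤ 2 ^ n := by exact_mod_cast sq_le_two_pow hn4
    have h10 : -V - M ≤ κ * (16 * n ^ 2 * A) := by
      rw [hB, div_le_iff₀ hκ0] at h6
      linarith
    have h11 : κ * (16 * n ^ 2 * A) ≤ 512 * A := by
      rw [hκ]
      have h12 : (1 / 2 : ℝ) ^ n * n ^ 2 ≤ 1 := by
        rw [one_div, inv_pow, inv_mul_le_iff₀ (by positivity)]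
        linarith
      calc 32 * (1 / 2 : ℝ) ^ n * (16 * n ^ 2 * A) = 512 * A * ((1 / 2 : ℝ) ^ n * n ^ 2) := by ring
        _ ≤ 512 * A * 1 := by gcongr
        _ = 512 * A := by ring
    linarith

end Pool.Agent.Lib.MP_1ca924_an
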