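import Pool.Agent.Lib.MP_1ca924_an.Sector

/-! # The key estimate through a thin sector -/

set_option autoImplicit false
set_option linter.unusedSectionVars false

open MeasureTheory Metric Set Filter Topology

namespace Pool.Agent.Lib.MP_1ca924_an

/-- The region: the sector cut at radius 3. -/
def reg (n : ℕ) : Set ℂ := sec n ∩ ball 0 3

lemma isOpen_reg {n : ℕ} (hn : 4 ≤ n) : IsOpen (reg n) := (isOpen_sec hn).inter isOpen_ball

/-- Step 1: insertion of a continuous function. -/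
lemma insertion {n : ℕ} (hn : 4 ≤ n) {τ : ℝ} (hτ : 0 < τ) (hτ1 : τ < 3) {u v : ℂ → EReal} {M : ℝ}
    (hM : 0 ≤ M) (hu : LowerSemicontinuousOn u (reg n)) (hu0 : ∀ z ∈ reg n, 0 ≤ u z)
    (hv : LowerSemicontinuousOn v (reg n))
    (huv : ∀ z ∈ reg n, 0 ≤ u z + v z)
    (hwall : ∀ ζ ∈ frontier (sec n), ‖ζ‖ = τ → ∀ ε : ℝ, 0 < ε →
      ∀ᶠ z in 𝓝[reg n] ζ, ((-M - ε : ℝ) : EReal) < v z)
    {ε : ℝ} (hε : 0 < ε) :
    ∃ φ : ℝ → ℝ, Continuous φ ∧ |φ 0| < ε ∧ |φ Real.pi| < ε ∧ (∀ θ, -ε < φ θ) ∧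
      ∀ θ ∈ Ioo 0 Real.pi, ((-M - ε - φ θ : ℝ) : EReal) < v (P n τ θ) ∧
        ((φ θ - ε : ℝ) : EReal) < u (P n τ θ) := by
  let t : ℝ → Set ℝ := fun θ => {c | -ε < c ∧
    (θ ∈ Ioo 0 Real.pi → ((-M - ε - c : ℝ) : EReal) < v (P n τ θ) ∧
        ((c - ε : ℝ) : EReal) < u (P n τ θ)) ∧ (θ ∉ Ioo 0 Real.pi → c < ε)}
  have hreg : ∀ θ ∈ Ioo 0 Real.pi, P n τ θ ∈ reg n := by
    intro θ hθ
    refine ⟨P_mem hn hτ hθ, ?_⟩
    rw [mem_ball_zero_iff, norm_P hτ.le]
    exact hτ1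
  have hconv : ∀ θ, Convex ℝ (t θ) := by
    intro θ
    apply Set.OrdConnected.convex
    constructor
    rintro a ⟨ha1, ha2, ha3⟩ b ⟨hb1, hb2, hb3⟩ c ⟨hac, hcb⟩
    refine ⟨by linarith, fun hθ => ⟨?_, ?_⟩, fun hθ => ?_⟩
    · refine lt_of_le_of_lt ?_ (ha2 hθ).1
      exact_mod_cast (by linarith)
    · refine lt_of_le_of_lt ?_ (hb2 hθ).2
      exact_mod_cast (by linarith)
    · exact lt_of_le_of_lt hcb (hb3 hθ)
  have hloc : ∀ θ : ℝ, ∃ c : ℝ, ∀ᶠ y in 𝓝 θ, c ∈ t y := by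
    intro θ
    by_cases hθ : θ ∈ Ioo 0 Real.pi
    · -- interior point
      have hz := hreg θ hθ
      obtain ⟨c, hc0, hc1, hc2⟩ : ∃ c : ℝ, 0 ≤ c ∧ ((-M - ε - c : ℝ) : EReal) < v (P n τ θ) ∧
          ((c - ε : ℝ) : EReal) < u (P n τ θ) := by
        have h1 := huv _ hz
        have h2 := hu0 _ hz
        generalize v (P n τ θ) = V at h1 ⊢
        generalize u (P n τ θ) = U at h1 h2 ⊢
        induction V with
        | bot => simp at h1
        | top =>
          refine ⟨0, le_rfl, EReal.coe_lt_top _, ?_⟩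
          refine lt_of_lt_of_le ?_ h2
          exact_mod_cast (by linarith)
        | coe b =>
          refine ⟨max (-b - M) 0, le_max_right _ _, ?_, ?_⟩
          · have : -b - M ≤ max (-b - M) 0 := le_max_left _ _
            exact_mod_cast (by linarith)
          · induction U with
            | bot => simp at h1
            | top => exact EReal.coe_lt_top _
            | coe a =>
              have h1' : 0 ≤ a + b := by exact_mod_cast h1
              have h2' : 0 ≤ a := by exact_mod_cast h2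
              have : max (-b - M) 0 ≤ a := max_le (by linarith) h2'
              exact_mod_cast (by linarith)
      refine ⟨c, ?_⟩
      have hcP := (continuous_P n τ).continuousAt (x := θ)
      have hv1 : ∀ᶠ y in 𝓝 θ, ((-M - ε - c : ℝ) : EReal) < v (P n τ y) := by
        have := hv _ hz _ hc1
        rw [(isOpen_reg hn).nhdsWithin_eq hz] at this
        exact hcP.eventually this
      have hu1 : ∀ᶠ y in 𝓝 θ, ((c - ε : ℝ) : EReal) < u (P n τ y) := by
        have := hu _ hz _ hc2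
        rw [(isOpen_reg hn).nhdsWithin_eq hz] at this
        exact hcP.eventually this
      filter_upwards [hv1, hu1, isOpen_Ioo.mem_nhds hθ] with y h1 h2 h3
      exact ⟨by linarith, fun _ => ⟨h1, h2⟩, fun h => absurd h3 h⟩
    · refine ⟨0, ?_⟩
      by_cases hθ' : θ ∈ Icc 0 Real.pi
      · -- endpoint
        have hfr : P n τ θ ∈ frontier (sec n) := by
          rw [(isOpen_sec hn).frontier_eq]
          constructor
          · have h1 : θ ∈ closure (Ioo 0 Real.pi) := by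
              rw [closure_Ioo Real.pi_pos.ne]; exact hθ'
            exact map_mem_closure (continuous_P n τ) h1 (fun y hy => P_mem hn hτ hy)
          · intro hmem
            obtain ⟨θ', hθ'', h2⟩ := exists_P hn hmem
            have h3 : (P n τ θ).arg = (Real.pi + θ) / n := arg_P hn hτ hθ'.1 hθ'.2
            have hnn : ‖P n τ θ‖ = τ := norm_P hτ.le
            rw [hnn] at h2
            have h4 : (P n τ θ').arg = (Real.pi + θ') / n := arg_P hn hτ hθ''.1.le hθ''.2.le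
            rw [← h2, h3] at h4
            have hn0 : (n : ℝ) ≠ 0 := by
              have : n ≠ 0 := by omega
              exact_mod_cast this
            have : θ = θ' := by
              field_simp at h4
              linarith
            rw [this] at hθ
            exact hθ hθ''
        have hw := hwall _ hfr (norm_P hτ.le) ε hε
        rw [eventually_nhdsWithin_iff] at hw
        have hcP := (continuous_P n τ).continuousAt (x := θ)
        filter_upwards [hcP.eventually hw] with y hy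
        refine ⟨by linarith, fun h => ⟨?_, ?_⟩, fun _ => hε⟩
        · have := hy (hreg y h)
          simpa using this
        · refine lt_of_lt_of_le ?_ (hu0 _ (hreg y h))
          exact_mod_cast (by linarith)
      · filter_upwards [isClosed_Icc.isOpen_compl.mem_nhds hθ'] with y hy
        refine ⟨by linarith, fun h => absurd (Ioo_subset_Icc_self h) hy, fun _ => hε⟩
  obtain ⟨φ, hφ⟩ := exists_continuous_forall_mem_convex_of_local_const hconv hloc
  refine ⟨φ, φ.continuous, ?_, ?_, fun θ => (hφ θ).1, fun θ hθ => (hφ θ).2.1 hθ⟩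
  · rw [abs_lt]
    exact ⟨(hφ 0).1, (hφ 0).2.2 (by simp)⟩
  · rw [abs_lt]
    exact ⟨(hφ Real.pi).1, (hφ Real.pi).2.2 (by simp)⟩

/-- inner harmonic extension (its imaginary part) of a sine polynomial -/
noncomputable def Fin' (n : ℕ) (τ : ℝ) (c : ℕ → ℝ) (K : ℕ) (z : ℂ) : ℂ :=
  ∑ k ∈ Finset.range (K + 1), (c k : ℂ) * ((-z ^ n) / ((τ ^ n : ℝ) : ℂ)) ^ (k + 1)

lemma differentiable_Fin' (n : ℕ) (τ : ℝ) (c : ℕ → ℝ) (K : ℕ) :
    Differentiable ℂ (Fin' n τ c K) := by
  unfold Fin'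
  fun_prop

lemma im_pow_mul_exp (θ : ℝ) (k : ℕ) :
    ((Complex.exp (θ * Complex.I)) ^ (k + 1)).im = Real.sin ((k + 1 : ℝ) * θ) := by
  rw [← Complex.exp_nat_mul]
  have : ((k + 1 : ℕ) : ℂ) * (θ * Complex.I) = (((k + 1 : ℝ) * θ : ℝ) : ℂ) * Complex.I := by
    push_cast; ring
  rw [this, Complex.exp_ofReal_mul_I_im]

lemma Fin'_P {n : ℕ} (hn : 4 ≤ n) {τ : ℝ} (hτ : 0 < τ) (c : ℕ → ℝ) (K : ℕ) (θ : ℝ) :
    (Fin' n τ c K (P n τ θ)).im = sineP c K θ := by
  unfold Fin' sineP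
  rw [Complex.im_sum]
  apply Finset.sum_congr rfl
  intro k _
  have hT : ((τ ^ n : ℝ) : ℂ) ≠ 0 := by
    have : τ ^ n ≠ 0 := by positivity
    exact_mod_cast this
  have h1 : (-(P n τ θ) ^ n) / ((τ ^ n : ℝ) : ℂ) = Complex.exp (θ * Complex.I) := by
    rw [neg_P_pow hn]
    push_cast at hT ⊢
    field_simp
  rw [h1, Complex.im_ofReal_mul, im_pow_mul_exp]

lemma im_pow_of_im_zero {a : ℂ} (h : a.im = 0) (k : ℕ) : (a ^ k).im = 0 := by
  have : a = (a.re : ℂ) := by
    apply Complex.ext <;> simp [h]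
  rw [this, ← Complex.ofReal_pow, Complex.ofReal_im]

lemma Fin'_real {n : ℕ} {τ : ℝ} (c : ℕ → ℝ) (K : ℕ) {ζ : ℂ} (h : (ζ ^ n).im = 0) :
    (Fin' n τ c K ζ).im = 0 := by
  unfold Fin'
  rw [Complex.im_sum]
  apply Finset.sum_eq_zero
  intro k _
  rw [Complex.im_ofReal_mul]
  have : ((-ζ ^ n) / ((τ ^ n : ℝ) : ℂ)).im = 0 := by
    rw [Complex.div_ofReal_im]
    simp [h]
  rw [im_pow_of_im_zero this, mul_zero]

lemma Fin'_bound {n : ℕ} {τ : ℝ} (hτ : 0 < τ) (c : ℕ → ℝ) (K : ℕ) {C : ℝ}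
    (hc : ∀ k ∈ Finset.range (K + 1), |c k| ≤ (k + 1) * C) (z : ℂ)
    (hz : (‖z‖ / τ) ^ n ≤ 1 / 2) :
    (Fin' n τ c K z).im ≤ 4 * (‖z‖ / τ) ^ n * C := by
  have hC : 0 ≤ C := by
    have := (abs_nonneg _).trans (hc 0 (by simp))
    simpa using this
  set x : ℝ := (‖z‖ / τ) ^ n with hx
  have hx0 : 0 ≤ x := by positivity
  unfold Fin'
  rw [Complex.im_sum]
  have h1 : ∀ k ∈ Finset.range (K + 1),
      ((c k : ℂ) * ((-z ^ n) / ((τ ^ n : ℝ) : ℂ)) ^ (k + 1)).im ≤ C * x * ((k + 1) * x ^ k) := by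
    intro k hk
    refine (Complex.abs_im_le_norm _ |> le_trans (le_abs_self _)).trans ?_
    rw [norm_mul, norm_pow, norm_div, norm_neg, norm_pow, Complex.norm_real, Complex.norm_real,
      Real.norm_eq_abs, Real.norm_of_nonneg (by positivity), ← div_pow, ← hx]
    calc |c k| * x ^ (k + 1) ≤ ((k + 1) * C) * x ^ (k + 1) := by
          gcongr; exact hc k hk
      _ = C * x * ((k + 1) * x ^ k) := by ring
  refine (Finset.sum_le_sum h1).trans ?_
  rw [← Finset.mul_sum]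
  have h2 : ∑ k ∈ Finset.range (K + 1), ((k : ℝ) + 1) * x ^ k ≤ 4 := by
    have hx1 : ‖x‖ < 1 := by rw [Real.norm_of_nonneg hx0]; linarith
    have hs := hasSum_coe_mul_geometric_of_norm_lt_one hx1
    have hg := hasSum_geometric_of_norm_lt_one hx1
    have hsum := hs.add hg
    have h3 : ∀ k : ℕ, (k : ℝ) * x ^ k + x ^ k = ((k : ℝ) + 1) * x ^ k := by intro k; ring
    simp_rw [h3] at hsum
    have h4 := sum_le_hasSum (Finset.range (K + 1)) (fun k _ => by positivity) hsum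
    refine h4.trans ?_
    have h5 : 0 < 1 - x := by linarith
    have h6 : x / (1 - x) ^ 2 + (1 - x)⁻¹ = 1 / (1 - x) ^ 2 := by
      field_simp; ring
    rw [h6, div_le_iff₀ (by positivity)]
    nlinarith
  calc C * x * ∑ k ∈ Finset.range (K + 1), ((k : ℝ) + 1) * x ^ k ≤ C * x * 4 := by
        gcongr
    _ = 4 * x * C := by ring

/-- Comparison in the inner part of the sector. -/
lemma inner_compare {n : ℕ} (hn : 4 ≤ n) {τ : ℝ} (hτ : 0 < τ) (hτ1 : τ < 3) {v : ℂ → EReal}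
    {M : ℝ} (hv : Hyperharmonic (reg n) v)
    (hwall : ∀ ζ ∈ frontier (sec n), ‖ζ‖ ≤ τ → ∀ ε : ℝ, 0 < ε →
      ∀ᶠ z in 𝓝[reg n] ζ, ((-M - ε : ℝ) : EReal) < v z)
    {c : ℕ → ℝ} {K : ℕ} {δ : ℝ} (hδ : 0 < δ)
    (harc : ∀ θ ∈ Ioo 0 Real.pi, ((-M - δ - sineP c K θ : ℝ) : EReal) < v (P n τ θ)) :
    ∀ z ∈ sec n, ‖z‖ < τ → 0 ≤ (((M + δ + (Fin' n τ c K z).im : ℝ)) : EReal) + v z := by
  intro z hz hzτ
  set U : Set ℂ := sec n ∩ ball 0 τ with hU
  have hUo : IsOpen U := (isOpen_sec hn).inter isOpen_ball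
  have hUb : Bornology.IsBounded U := isBounded_ball.subset inter_subset_right
  have hUr : U ⊆ reg n := by
    intro w hw
    refine ⟨hw.1, ?_⟩
    have := hw.2
    rw [mem_ball_zero_iff] at this ⊢
    linarith
  set F : ℂ → ℂ := fun z => Fin' n τ c K z + ((M + δ : ℝ) : ℂ) * Complex.I with hF
  have hFd : Differentiable ℂ F := by
    have := differentiable_Fin' n τ c K
    fun_prop
  have hFim : ∀ z, (F z).im = M + δ + (Fin' n τ c K z).im := by
    intro z
    simp only [hF, Complex.add_im, Complex.im_ofReal_mul, Complex.I_im, mul_one]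
    ring
  have hFh : Hyperharmonic U (fun z => (((F z).im : ℝ) : EReal)) :=
    hyperharmonic_im hFd.differentiableOn
  have hmain := comparison hUo hUb hFh (hv.mono hUr) ?_ z ⟨hz, by
    rw [mem_ball_zero_iff]; exact hzτ⟩
  · rw [hFim] at hmain
    exact hmain
  · intro ζ hζ ε hε
    have hFc : Continuous fun z => (F z).im := Complex.continuous_im.comp hFd.continuous
    rw [hUo.frontier_eq] at hζ
    have hζcl : ζ ∈ closure (sec n) := closure_mono inter_subset_left hζ.1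
    have hζτ : ‖ζ‖ ≤ τ := by
      have h1 : ζ ∈ closure (ball (0:ℂ) τ) := closure_mono inter_subset_right hζ.1
      have h2 := closure_ball_subset_closedBall h1
      simpa using h2
    have hcomb : ∀ a b : ℝ, -ε ≤ a + b → (∀ᶠ z in 𝓝[U] ζ, a < (F z).im) →
        (∀ᶠ z in 𝓝[U] ζ, (b : EReal) < v z) →
        ∀ᶠ z in 𝓝[U] ζ, ((-ε : ℝ) : EReal) ≤ (((F z).im : ℝ) : EReal) + v z := by
      intro a b hab h1 h2
      filter_upwards [h1, h2] with w hw1 hw2
      calc ((-ε : ℝ) : EReal) ≤ ((a + b : ℝ) : EReal) := by exact_mod_cast hab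
        _ = (a : EReal) + (b : EReal) := by rw [EReal.coe_add]
        _ ≤ (((F w).im : ℝ) : EReal) + v w := by
            apply add_le_add _ hw2.le
            exact_mod_cast hw1.le
    by_cases hmem : ζ ∈ sec n
    · -- on the arc
      have hnorm : ‖ζ‖ = τ := by
        apply le_antisymm hζτ
        by_contra hcon
        push Not at hcon
        exact hζ.2 ⟨hmem, by rw [mem_ball_zero_iff]; exact hcon⟩
      obtain ⟨θ, hθ, hP⟩ := exists_P hn hmem
      rw [hnorm] at hP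
      have hζreg : ζ ∈ reg n := ⟨hmem, by rw [mem_ball_zero_iff, hnorm]; exact hτ1⟩
      have h1 : (F ζ).im = M + δ + sineP c K θ := by
        rw [hFim, hP, Fin'_P hn hτ]
      apply hcomb (M + δ + sineP c K θ - ε) (-M - δ - sineP c K θ) (by linarith)
      · apply nhdsWithin_le_nhds
        have : M + δ + sineP c K θ - ε < (F ζ).im := by rw [h1]; linarith
        exact hFc.continuousAt.eventually (lt_mem_nhds this)
      · have h2 := harc θ hθ
        rw [← hP] at h2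
        have := hv.1 ζ hζreg _ h2
        exact nhdsWithin_mono ζ hUr this
    · -- on the walls
      have hfr : ζ ∈ frontier (sec n) := by
        rw [(isOpen_sec hn).frontier_eq]; exact ⟨hζcl, hmem⟩
      have h1 : (F ζ).im = M + δ := by
        rw [hFim, Fin'_real c K (im_pow_frontier hn hfr), add_zero]
      apply hcomb (M + δ - ε / 2) (-M - ε / 2) (by linarith)
      · apply nhdsWithin_le_nhds
        have : M + δ - ε / 2 < (F ζ).im := by rw [h1]; linarith
        exact hFc.continuousAt.eventually (lt_mem_nhds this)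
      · exact nhdsWithin_mono ζ hUr (hwall ζ hfr hζτ (ε / 2) (by linarith))

/-- the basic kernel `-(1/a)^m - a^m` -/
noncomputable def ker (m : ℕ) (a : ℂ) : ℂ := -(a⁻¹) ^ m - a ^ m

/-- outer harmonic extension (its imaginary part) of a sine polynomial, vanishing at radius 3 -/
noncomputable def Fout (n : ℕ) (τ : ℝ) (c : ℕ → ℝ) (K : ℕ) (z : ℂ) : ℂ :=
  ∑ k ∈ Finset.range (K + 1),
    ((c k / ((((τ / 3) ^ n)⁻¹) ^ (k + 1) - ((τ / 3) ^ n) ^ (k + 1)) : ℝ) : ℂ) *
      ker (k + 1) ((-z ^ n) / ((3 ^ n : ℝ) : ℂ))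

lemma differentiableOn_Fout {n : ℕ} (τ : ℝ) (c : ℕ → ℝ) (K : ℕ) {U : Set ℂ}
    (hU : ∀ z ∈ U, z ≠ 0) : DifferentiableOn ℂ (Fout n τ c K) U := by
  unfold Fout ker
  have h3 : ((3 ^ n : ℝ) : ℂ) ≠ 0 := by
    have : (3 : ℝ) ^ n ≠ 0 := by positivity
    exact_mod_cast this
  have : ∀ z ∈ U, (-z ^ n) / ((3 ^ n : ℝ) : ℂ) ≠ 0 := by
    intro z hz
    have := hU z hz
    apply div_ne_zero _ h3
    rw [neg_ne_zero]
    exact pow_ne_zero _ this
  apply DifferentiableOn.fun_sum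
  intro k _
  apply DifferentiableOn.const_mul
  apply DifferentiableOn.sub
  · apply DifferentiableOn.neg
    apply DifferentiableOn.pow
    apply DifferentiableOn.inv
    · fun_prop
    · exact this
  · fun_prop

lemma im_inv_exp_pow (θ : ℝ) (k : ℕ) :
    (((Complex.exp (θ * Complex.I))⁻¹) ^ (k + 1)).im = - Real.sin ((k + 1 : ℝ) * θ) := by
  rw [← Complex.exp_neg]
  have : -(θ * Complex.I) = ((-θ : ℝ) : ℂ) * Complex.I := by push_cast; ring
  rw [this, im_pow_mul_exp]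
  rw [mul_neg, Real.sin_neg]

lemma Dk_pos {b : ℝ} (hb : 0 < b) (hb1 : b < 1) (k : ℕ) : 0 < (b⁻¹) ^ (k + 1) - b ^ (k + 1) := by
  have h1 : b ^ (k + 1) < 1 := pow_lt_one₀ hb.le hb1 (by omega)
  have h2 : 1 < (b⁻¹) ^ (k + 1) := one_lt_pow₀ (one_lt_inv_iff₀.2 ⟨hb, hb1⟩) (by omega)
  linarith

lemma Fout_P {n : ℕ} (hn : 4 ≤ n) {τ : ℝ} (hτ : 0 < τ) (hτ1 : τ < 3) (c : ℕ → ℝ) (K : ℕ) (θ : ℝ) :
    (Fout n τ c K (P n τ θ)).im = sineP c K θ := by
  unfold Fout sineP
  rw [Complex.im_sum]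
  apply Finset.sum_congr rfl
  intro k _
  set b : ℝ := (τ / 3) ^ n with hb
  have hb0 : 0 < b := by positivity
  have hb1 : b < 1 := pow_lt_one₀ (by positivity) (by rw [div_lt_one (by norm_num)]; exact hτ1)
    (by omega)
  have hD := Dk_pos hb0 hb1 k
  have h1 : (-(P n τ θ) ^ n) / ((3 ^ n : ℝ) : ℂ) = (b : ℂ) * Complex.exp (θ * Complex.I) := by
    rw [neg_P_pow hn, hb]
    push_cast
    rw [div_pow]
    ring
  rw [h1, Complex.im_ofReal_mul]
  unfold ker
  rw [mul_inv, mul_pow, mul_pow, Complex.sub_im, Complex.neg_im, ← Complex.ofReal_inv,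
    ← Complex.ofReal_pow, ← Complex.ofReal_pow, Complex.im_ofReal_mul, Complex.im_ofReal_mul,
    im_pow_mul_exp, im_inv_exp_pow, div_mul_eq_mul_div, div_eq_iff hD.ne']
  ring

lemma ker_real {a : ℂ} (h : a.im = 0) (m : ℕ) : (ker m a).im = 0 := by
  unfold ker
  have h1 : (a⁻¹).im = 0 := by rw [Complex.inv_im, h]; simp
  rw [Complex.sub_im, Complex.neg_im, im_pow_of_im_zero h, im_pow_of_im_zero h1]
  simp

lemma ker_unit {a : ℂ} (h : ‖a‖ = 1) (m : ℕ) : (ker m a).im = 0 := by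
  unfold ker
  have h1 : a⁻¹ = (starRingEnd ℂ) a := Complex.inv_eq_conj h
  rw [h1, ← map_pow, Complex.sub_im, Complex.neg_im, Complex.conj_im]
  ring

lemma Fout_real {n : ℕ} {τ : ℝ} (c : ℕ → ℝ) (K : ℕ) {ζ : ℂ} (h : (ζ ^ n).im = 0) :
    (Fout n τ c K ζ).im = 0 := by
  unfold Fout
  rw [Complex.im_sum]
  apply Finset.sum_eq_zero
  intro k _
  rw [Complex.im_ofReal_mul]
  have : ((-ζ ^ n) / ((3 ^ n : ℝ) : ℂ)).im = 0 := by
    rw [Complex.div_ofReal_im]
    simp [h]
  rw [ker_real this, mul_zero]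

lemma Fout_unit {n : ℕ} {τ : ℝ} (c : ℕ → ℝ) (K : ℕ) {ζ : ℂ} (h : ‖ζ‖ = 3) :
    (Fout n τ c K ζ).im = 0 := by
  unfold Fout
  rw [Complex.im_sum]
  apply Finset.sum_eq_zero
  intro k _
  rw [Complex.im_ofReal_mul]
  have : ‖(-ζ ^ n) / ((3 ^ n : ℝ) : ℂ)‖ = 1 := by
    rw [norm_div, norm_neg, norm_pow, h, Complex.norm_real, Real.norm_of_nonneg (by positivity)]
    field_simp
  rw [ker_unit this, mul_zero]

/-- Comparison in the outer part of the sector. -/
lemma outer_compare {n : ℕ} (hn : 4 ≤ n) {τ : ℝ} (hτ : 0 < τ) (hτ1 : τ < 3) {u : ℂ → EReal}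
    (hu : Hyperharmonic (reg n) u) (hu0 : ∀ z ∈ reg n, 0 ≤ u z)
    {c : ℕ → ℝ} {K : ℕ} {δ : ℝ} (hδ : 0 < δ)
    (harc : ∀ θ ∈ Ioo 0 Real.pi, ((sineP c K θ - δ : ℝ) : EReal) < u (P n τ θ)) :
    ∀ z ∈ sec n, τ < ‖z‖ → ‖z‖ < 3 → 0 ≤ (((δ - (Fout n τ c K z).im : ℝ)) : EReal) + u z := by
  intro z hz hzτ hz3
  set A : Set ℂ := {z | τ < ‖z‖} with hA
  have hAo : IsOpen A := isOpen_lt continuous_const continuous_norm
  have hAcl : closure A ⊆ {z | τ ≤ ‖z‖} :=
    closure_minimal (fun w (hw : τ < ‖w‖) => (le_of_lt hw : τ ≤ ‖w‖))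
      (isClosed_le continuous_const continuous_norm)
  set U : Set ℂ := reg n ∩ A with hU
  have hUo : IsOpen U := (isOpen_reg hn).inter hAo
  have hUb : Bornology.IsBounded U :=
    (isBounded_ball (x := (0:ℂ)) (r := 3)).subset (fun w hw => hw.1.2)
  have hUr : U ⊆ reg n := inter_subset_left
  have hA0 : ∀ w : ℂ, τ ≤ ‖w‖ → w ≠ 0 := by
    rintro w hw rfl
    simp at hw
    linarith
  set F : ℂ → ℂ := fun z => ((δ : ℝ) : ℂ) * Complex.I - Fout n τ c K z with hF
  have hFd : DifferentiableOn ℂ F {w | w ≠ 0} := by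
    apply DifferentiableOn.sub (by fun_prop)
    exact differentiableOn_Fout τ c K (fun w hw => hw)
  have hFim : ∀ z, (F z).im = δ - (Fout n τ c K z).im := by
    intro z
    simp only [hF, Complex.sub_im, Complex.im_ofReal_mul, Complex.I_im, mul_one]
  have hFh : Hyperharmonic U (fun z => (((F z).im : ℝ) : EReal)) :=
    hyperharmonic_im (hFd.mono (fun w hw => hA0 w (le_of_lt hw.2)))
  have hmain := comparison hUo hUb hFh (hu.mono hUr) ?_ z ⟨⟨hz, by
    rw [mem_ball_zero_iff]; exact hz3⟩, hzτ⟩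
  · rw [hFim] at hmain
    exact hmain
  · intro ζ hζ ε hε
    rw [hUo.frontier_eq] at hζ
    have hζA : τ ≤ ‖ζ‖ := hAcl (closure_mono inter_subset_right hζ.1)
    have hζ0 : ζ ≠ 0 := hA0 ζ hζA
    have hFc : ContinuousAt (fun z => (F z).im) ζ := by
      apply Complex.continuous_im.continuousAt.comp
      exact (hFd.differentiableAt (isOpen_ne.mem_nhds hζ0)).continuousAt
    have hζcl : ζ ∈ closure (sec n) :=
      closure_mono (fun w hw => hw.1.1) hζ.1
    have hζ3 : ‖ζ‖ ≤ 3 := by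
      have h1 : ζ ∈ closure (ball (0:ℂ) 3) := closure_mono (fun w hw => hw.1.2) hζ.1
      have h2 := closure_ball_subset_closedBall h1
      simpa using h2
    have hcomb : ∀ a b : ℝ, -ε ≤ a + b → (∀ᶠ z in 𝓝[U] ζ, a < (F z).im) →
        (∀ᶠ z in 𝓝[U] ζ, (b : EReal) ≤ u z) →
        ∀ᶠ z in 𝓝[U] ζ, ((-ε : ℝ) : EReal) ≤ (((F z).im : ℝ) : EReal) + u z := by
      intro a b hab h1 h2
      filter_upwards [h1, h2] with w hw1 hw2
      calc ((-ε : ℝ) : EReal) ≤ ((a + b : ℝ) : EReal) := by exact_mod_cast hab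
        _ = (a : EReal) + (b : EReal) := by rw [EReal.coe_add]
        _ ≤ (((F w).im : ℝ) : EReal) + u w := by
            apply add_le_add _ hw2
            exact_mod_cast hw1.le
    have hnn : ∀ᶠ z in 𝓝[U] ζ, ((0 : ℝ) : EReal) ≤ u z := by
      filter_upwards [self_mem_nhdsWithin] with w hw
      exact hu0 w hw.1
    by_cases hmem : ζ ∈ sec n
    · by_cases h3 : ‖ζ‖ = 3
      · -- outer arc
        have h1 : (F ζ).im = δ := by rw [hFim, Fout_unit c K h3, sub_zero]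
        apply hcomb (δ - ε) 0 (by linarith) _ hnn
        apply nhdsWithin_le_nhds
        have : δ - ε < (F ζ).im := by rw [h1]; linarith
        exact hFc.eventually (lt_mem_nhds this)
      · have h3' : ‖ζ‖ < 3 := lt_of_le_of_ne hζ3 h3
        have hζreg : ζ ∈ reg n := ⟨hmem, by rw [mem_ball_zero_iff]; exact h3'⟩
        have hnorm : ‖ζ‖ = τ := by
          apply le_antisymm _ hζA
          by_contra hcon
          push Not at hcon
          exact hζ.2 ⟨hζreg, hcon⟩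
        obtain ⟨θ, hθ, hP⟩ := exists_P hn hmem
        rw [hnorm] at hP
        have h1 : (F ζ).im = δ - sineP c K θ := by
          rw [hFim, hP, Fout_P hn hτ hτ1]
        apply hcomb (δ - sineP c K θ - ε) (sineP c K θ - δ) (by linarith)
        · apply nhdsWithin_le_nhds
          have : δ - sineP c K θ - ε < (F ζ).im := by rw [h1]; linarith
          exact hFc.eventually (lt_mem_nhds this)
        · have h2 := harc θ hθ
          rw [← hP] at h2
          have h4 := hu.1 ζ hζreg _ h2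
          have h5 : ∀ᶠ w in 𝓝[U] ζ, ((sineP c K θ - δ : ℝ) : EReal) < u w :=
            nhdsWithin_mono ζ hUr h4
          exact h5.mono fun w hw => hw.le
    · -- on the walls
      have hfr : ζ ∈ frontier (sec n) := by
        rw [(isOpen_sec hn).frontier_eq]; exact ⟨hζcl, hmem⟩
      have h1 : (F ζ).im = δ := by
        rw [hFim, Fout_real c K (im_pow_frontier hn hfr), sub_zero]
      apply hcomb (δ - ε) 0 (by linarith) _ hnn
      apply nhdsWithin_le_nhds
      have : δ - ε < (F ζ).im := by rw [h1]; linarith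
      exact hFc.eventually (lt_mem_nhds this)

lemma Fout_lower {n : ℕ} (hn : 4 ≤ n) {τ : ℝ} (hτ : 0 < τ) (hτ1 : τ ≤ 1 / 2) (c : ℕ → ℝ) (K : ℕ)
    {C : ℝ} (hc : ∀ k ∈ Finset.range (K + 1), |c k| ≤ (k + 1) * C) {z : ℂ}
    (h1 : 1 ≤ ‖z‖) (h2 : ‖z‖ ≤ 5 / 2) (h3 : ‖z‖ ^ n / 2 ≤ (-z ^ n).im)
    (hy : (τ / ‖z‖) ^ n ≤ 1 / 256) :
    C * (τ / ‖z‖) ^ n / 8 - (C - c 0) ≤ (Fout n τ c K z).im := by
  have hzpos : 0 < ‖z‖ := by linarith
  have hC : |c 0| ≤ C := by
    have := hc 0 (by simp)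
    simpa using this
  have hC0 : 0 ≤ C := (abs_nonneg _).trans hC
  set b : ℝ := (τ / 3) ^ n with hb
  set a : ℂ := (-z ^ n) / ((3 ^ n : ℝ) : ℂ) with ha
  set y : ℝ := (τ / ‖z‖) ^ n with hydef
  have hb0 : 0 < b := by positivity
  have hb2 : b ≤ 1 / 2 := by
    calc b ≤ (1 / 6) ^ n := by
          rw [hb]
          exact pow_le_pow_left₀ (by positivity) (by linarith) n
      _ ≤ (1 / 6) ^ 4 := pow_le_pow_of_le_one (by norm_num) (by norm_num) hn
      _ ≤ 1 / 2 := by norm_num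
  have hna : ‖a‖ = (‖z‖ / 3) ^ n := by
    rw [ha, norm_div, norm_neg, norm_pow, Complex.norm_real, Real.norm_of_nonneg (by positivity),
      div_pow]
  have ha0 : 0 < ‖a‖ := by rw [hna]; positivity
  have ha1 : ‖a‖ ≤ 1 / 2 := by
    rw [hna]
    calc (‖z‖ / 3) ^ n ≤ (5 / 6) ^ n := pow_le_pow_left₀ (by positivity) (by linarith) n
      _ ≤ (5 / 6) ^ 4 := pow_le_pow_of_le_one (by norm_num) (by norm_num) hn
      _ ≤ 1 / 2 := by norm_num
  have hyb : y = b / ‖a‖ := by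
    rw [hydef, hb, hna, ← div_pow]
    congr 1
    field_simp
  have hy0 : 0 < y := by rw [hyb]; positivity
  have ham : ‖a‖ / 2 ≤ a.im := by
    rw [ha, Complex.div_ofReal_im, norm_div, norm_neg, norm_pow, Complex.norm_real,
      Real.norm_of_nonneg (by positivity)]
    rw [div_div, mul_comm, ← div_div]
    gcongr
  unfold Fout
  rw [← ha, ← hb, Complex.im_sum, Finset.sum_range_succ']
  -- the tail
  have htail : ∀ k ∈ Finset.range K, -(4 * C * y ^ 2 * (((k : ℝ) + 2) * y ^ k)) ≤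
      (((c (k + 1) / ((b⁻¹) ^ (k + 1 + 1) - b ^ (k + 1 + 1)) : ℝ) : ℂ) * ker (k + 1 + 1) a).im := by
    intro k hk
    have hk' : k + 1 ∈ Finset.range (K + 1) := by
      rw [Finset.mem_range] at hk ⊢; omega
    rw [Complex.im_ofReal_mul]
    have hD := Dk_pos hb0 (by linarith) (k + 1)
    have hbp : b ^ (k + 1 + 1) ≤ 1 / 2 := by
      calc b ^ (k + 1 + 1) ≤ b ^ 1 := pow_le_pow_of_le_one hb0.le (by linarith) (by omega)
        _ ≤ 1 / 2 := by simpa using hb2
    have hbi : 1 ≤ (b⁻¹) ^ (k + 1 + 1) := one_le_pow₀ ((one_le_inv₀ hb0).2 (by linarith))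
    have hDl : (b⁻¹) ^ (k + 1 + 1) / 2 ≤ (b⁻¹) ^ (k + 1 + 1) - b ^ (k + 1 + 1) := by linarith
    have hker : |(ker (k + 1 + 1) a).im| ≤ 2 * (‖a‖⁻¹) ^ (k + 1 + 1) := by
      refine (Complex.abs_im_le_norm _).trans ?_
      unfold ker
      refine (norm_sub_le _ _).trans ?_
      rw [norm_neg, norm_pow, norm_pow, norm_inv]
      have : ‖a‖ ^ (k + 1 + 1) ≤ (‖a‖⁻¹) ^ (k + 1 + 1) := by
        apply pow_le_pow_left₀ ha0.le
        calc ‖a‖ ≤ 1 := by linarith
          _ ≤ ‖a‖⁻¹ := (one_le_inv₀ ha0).2 (by linarith)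
      linarith
    have habs : |c (k + 1) / ((b⁻¹) ^ (k + 1 + 1) - b ^ (k + 1 + 1)) * (ker (k + 1 + 1) a).im|
        ≤ 4 * C * y ^ 2 * (((k : ℝ) + 2) * y ^ k) := by
      rw [abs_mul, abs_div, abs_of_pos hD]
      have hck := hc (k + 1) hk'
      push_cast at hck
      calc |c (k + 1)| / ((b⁻¹) ^ (k + 1 + 1) - b ^ (k + 1 + 1)) * |(ker (k + 1 + 1) a).im|
          ≤ ((k + 1 + 1) * C) / ((b⁻¹) ^ (k + 1 + 1) / 2) * (2 * (‖a‖⁻¹) ^ (k + 1 + 1)) := by
            gcongr
        _ = 4 * C * y ^ 2 * (((k : ℝ) + 2) * y ^ k) := by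
            have e1 : ((k : ℝ) + 1 + 1) = k + 2 := by ring
            rw [hyb, inv_pow, inv_pow, div_pow, div_pow, e1]
            field_simp
            ring
    exact (neg_le_neg habs).trans (neg_abs_le _)
  have htail2 := Finset.sum_le_sum htail
  have hsum : ∑ k ∈ Finset.range K, ((k : ℝ) + 2) * y ^ k ≤ 4 := by
    have hy1 : ‖y‖ < 1 := by rw [Real.norm_of_nonneg hy0.le]; linarith
    have hs := hasSum_coe_mul_geometric_of_norm_lt_one hy1
    have hg := (hasSum_geometric_of_norm_lt_one hy1).mul_left 2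
    have hsum := hs.add hg
    have h3 : ∀ k : ℕ, (k : ℝ) * y ^ k + 2 * y ^ k = ((k : ℝ) + 2) * y ^ k := by intro k; ring
    simp_rw [h3] at hsum
    have h4 := sum_le_hasSum (Finset.range K) (fun k _ => by positivity) hsum
    refine h4.trans ?_
    have h5 : 0 < 1 - y := by linarith
    have h6 : y / (1 - y) ^ 2 + 2 * (1 - y)⁻¹ = (2 - y) / (1 - y) ^ 2 := by
      field_simp; ring
    rw [h6, div_le_iff₀ (by positivity)]
    nlinarith
  have htail3 : -(C * y / 16) ≤ ∑ k ∈ Finset.range K,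
      (((c (k + 1) / ((b⁻¹) ^ (k + 1 + 1) - b ^ (k + 1 + 1)) : ℝ) : ℂ) * ker (k + 1 + 1) a).im := by
    refine le_trans ?_ htail2
    rw [Finset.sum_neg_distrib, ← Finset.mul_sum]
    have h5 : 4 * C * y ^ 2 * ∑ k ∈ Finset.range K, ((k : ℝ) + 2) * y ^ k ≤ 4 * C * y ^ 2 * 4 := by
      gcongr
    have h6 : 4 * C * y ^ 2 * 4 ≤ C * y / 16 := by
      have : 16 * y ≤ 1 / 16 := by linarith
      have h7 : 0 ≤ C * y := by positivity
      nlinarith
    linarith
  -- the main term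
  have hmain : C * y / 4 - (C - c 0) ≤
      (((c 0 / ((b⁻¹) ^ (0 + 1) - b ^ (0 + 1)) : ℝ) : ℂ) * ker (0 + 1) a).im := by
    rw [Complex.im_ofReal_mul]
    have hD := Dk_pos hb0 (by linarith) 0
    simp only [zero_add, pow_one] at hD ⊢
    have hk : (ker 1 a).im = a.im * (‖a‖⁻¹ ^ 2 - 1) := by
      unfold ker
      rw [pow_one, pow_one, Complex.sub_im, Complex.neg_im, Complex.inv_im,
        Complex.normSq_eq_norm_sq]
      field_simp
    have hia : 4 ≤ ‖a‖⁻¹ ^ 2 := by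
      have h5 : 2 ≤ ‖a‖⁻¹ := by
        rw [le_inv_comm₀ (by norm_num) ha0]
        simpa using ha1
      nlinarith
    have haim : a.im ≤ ‖a‖ := Complex.im_le_norm a
    have hkl : ‖a‖⁻¹ / 4 ≤ (ker 1 a).im := by
      rw [hk]
      calc ‖a‖⁻¹ / 4 = (‖a‖ / 2) * (‖a‖⁻¹ ^ 2 / 2) := by field_simp; ring
        _ ≤ a.im * (‖a‖⁻¹ ^ 2 - 1) := by
            apply mul_le_mul ham (by linarith) (by positivity) (le_trans (by positivity) ham)
    have hku : (ker 1 a).im ≤ ‖a‖⁻¹ := by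
      rw [hk]
      calc a.im * (‖a‖⁻¹ ^ 2 - 1) ≤ ‖a‖ * (‖a‖⁻¹ ^ 2) := by
            apply mul_le_mul haim (by linarith) (by linarith) ha0.le
        _ = ‖a‖⁻¹ := by field_simp
    have hbinv : 2 ≤ b⁻¹ := by
      rw [le_inv_comm₀ (by norm_num) hb0]
      simpa using hb2
    set G : ℝ := (ker 1 a).im / (b⁻¹ - b) with hG
    have hGl : y / 4 ≤ G := by
      rw [hG, le_div_iff₀ hD, hyb]
      calc b / ‖a‖ / 4 * (b⁻¹ - b) ≤ b / ‖a‖ / 4 * b⁻¹ := by
            gcongr; linarith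
        _ = ‖a‖⁻¹ / 4 := by field_simp
        _ ≤ _ := hkl
    have hGu : G ≤ 1 := by
      rw [hG, div_le_one hD]
      calc (ker 1 a).im ≤ ‖a‖⁻¹ := hku
        _ = y * b⁻¹ := by rw [hyb]; field_simp
        _ ≤ (1 / 256) * b⁻¹ := by gcongr
        _ ≤ b⁻¹ - b := by linarith
    have e : c 0 / (b⁻¹ - b) * (ker 1 a).im = c 0 * G := by rw [hG]; ring
    rw [e]
    have h8 : 0 ≤ C - c 0 := by linarith [(abs_le.1 hC).2]
    have h9 : C * (y / 4) ≤ C * G := mul_le_mul_of_nonneg_left hGl hC0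
    have h10 : (C - c 0) * G ≤ (C - c 0) * 1 := mul_le_mul_of_nonneg_left hGu h8
    nlinarith
  have hfin : 0 ≤ C * y := by positivity
  linarith

/-- **Key estimate.** (`v` plays the role of `-v`.) -/
theorem key_estimate {n : ℕ} (hn : 16 ≤ n) {τ : ℝ} (hτ : 0 < τ) (hτ1 : τ ≤ 1 / 2)
    {u v : ℂ → EReal} {M : ℝ} (hM : 0 ≤ M)
    (hu : Hyperharmonic (reg n) u) (hu0 : ∀ z ∈ reg n, 0 ≤ u z)
    (hv : Hyperharmonic (reg n) v) (huv : ∀ z ∈ reg n, 0 ≤ u z + v z)
    (hwall : ∀ ζ ∈ frontier (sec n), ‖ζ‖ ≤ τ → ∀ ε : ℝ, 0 < ε →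
      ∀ᶠ z in 𝓝[reg n] ζ, ((-M - ε : ℝ) : EReal) < v z)
    {z z' : ℂ} (hz : z ∈ sec n) (hzτ : ‖z‖ ≤ τ / 2) (hz' : z' ∈ sec n)
    (h1 : 1 ≤ ‖z'‖) (h2 : ‖z'‖ ≤ 5 / 2) (h3 : ‖z'‖ ^ n / 2 ≤ (-z' ^ n).im) :
    0 ≤ (M : EReal) + ((32 * (‖z‖ * ‖z'‖ / τ ^ 2) ^ n : ℝ) : EReal) * u z' + v z := by
  have hn4 : 4 ≤ n := by omega
  have hz0 : 0 < ‖z‖ := norm_pos_iff.2 (sec_ne_zero hn4 hz)
  have hz'0 : 0 < ‖z'‖ := by linarith
  have hzr : z ∈ reg n := ⟨hz, by rw [mem_ball_zero_iff]; linarith⟩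
  have hz'r : z' ∈ reg n := ⟨hz', by rw [mem_ball_zero_iff]; linarith⟩
  have hvz := hv.2.1 z hzr
  have huz := hu0 z' hz'r
  have hκ : 0 < 32 * (‖z‖ * ‖z'‖ / τ ^ 2) ^ n := by positivity
  -- the real estimate
  have hreal : ∀ U V : ℝ, u z' = (U : EReal) → v z = (V : EReal) →
      0 ≤ M + 32 * (‖z‖ * ‖z'‖ / τ ^ 2) ^ n * U + V := by
    intro U V hU hV
    have hU0 : 0 ≤ U := by rw [hU] at huz; exact_mod_cast huz
    set x : ℝ := (‖z‖ / τ) ^ n with hx
    set y : ℝ := (τ / ‖z'‖) ^ n with hy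
    have hx0 : 0 < x := by positivity
    have hy0 : 0 < y := by positivity
    have hxy : (‖z‖ * ‖z'‖ / τ ^ 2) ^ n = x / y := by
      rw [hx, hy, ← div_pow]
      congr 1
      field_simp
    have hx2 : x ≤ 1 / 2 := by
      calc x ≤ (1 / 2) ^ n := by
            apply pow_le_pow_left₀ (by positivity)
            rw [div_le_iff₀ hτ]; linarith
        _ ≤ (1 / 2) ^ 1 := pow_le_pow_of_le_one (by norm_num) (by norm_num) (by omega)
        _ = 1 / 2 := by norm_num
    have hy2 : y ≤ 1 / 256 := by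
      calc y ≤ (1 / 2) ^ n := by
            apply pow_le_pow_left₀ (by positivity)
            rw [div_le_iff₀ hz'0]; linarith
        _ ≤ (1 / 2) ^ 8 := pow_le_pow_of_le_one (by norm_num) (by norm_num) (by omega)
        _ = 1 / 256 := by norm_num
    have key : ∀ ε : ℝ, 0 < ε → 0 ≤ M + 32 * (x / y) * U + V + ε * (3 + 384 * (x / y)) := by
      intro ε hε
      obtain ⟨φ, hφc, hφ0, hφπ, hφl, hφ⟩ := insertion hn4 hτ (by linarith) hM hu.1 hu0 hv.1 huv
        (fun ζ hζ hζn => hwall ζ hζ hζn.le) hε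
      obtain ⟨c, K, hcK⟩ := sine_approx hφc hε hφ0 hφπ
      have hδ : (0 : ℝ) < 3 * ε := by linarith
      have hpl : ∀ θ ∈ Icc 0 Real.pi, -(3 * ε) ≤ sineP c K θ := by
        intro θ hθ
        have a1 := (abs_le.1 (hcK θ hθ)).2
        have a2 := hφl θ
        linarith
      have hcb := sine_coeff_bound hδ.le hpl
      have hin := inner_compare hn4 hτ (by linarith) hv hwall (c := c) (K := K) hδ
        (fun θ hθ => by
          refine lt_of_le_of_lt ?_ (hφ θ hθ).1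
          have a1 := (abs_le.1 (hcK θ (Ioo_subset_Icc_self hθ))).2
          exact_mod_cast (by linarith)) z hz (by linarith)
      have hout := outer_compare hn4 hτ (by linarith) hu hu0 (c := c) (K := K) hδ
        (fun θ hθ => by
          refine lt_of_le_of_lt ?_ (hφ θ hθ).2
          have a1 := (abs_le.1 (hcK θ (Ioo_subset_Icc_self hθ))).1
          exact_mod_cast (by linarith)) z' hz' (by linarith) (by linarith)
      rw [hV] at hin
      rw [hU] at hout
      have hin' : 0 ≤ M + 3 * ε + (Fin' n τ c K z).im + V := by exact_mod_cast hin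
      have hout' : 0 ≤ 3 * ε - (Fout n τ c K z').im + U := by exact_mod_cast hout
      have hb := Fin'_bound hτ c K hcb z (by rw [← hx]; exact hx2)
      have hl := Fout_lower hn4 hτ hτ1 c K hcb h1 h2 h3 (by rw [← hy]; exact hy2)
      rw [← hx] at hb
      rw [← hy] at hl
      set C : ℝ := c 0 + 3 * (3 * ε) with hC
      have hCb : C ≤ 8 / y * (U + 12 * ε) := by
        have : C * y / 8 ≤ U + 12 * ε := by
          have e : C - c 0 = 9 * ε := by rw [hC]; ring
          rw [e] at hl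
          linarith
        rw [div_mul_eq_mul_div, le_div_iff₀ hy0]
        linarith
      have h4 : 4 * x * C ≤ 4 * x * (8 / y * (U + 12 * ε)) := by gcongr
      have h5 : 4 * x * (8 / y * (U + 12 * ε)) = 32 * (x / y) * U + 384 * (x / y) * ε := by
        field_simp; ring
      linarith
    rw [hxy]
    by_contra hcon
    push Not at hcon
    have hA : 0 < 3 + 384 * (x / y) := by positivity
    set B := M + 32 * (x / y) * U + V with hB
    have := key (-B / (2 * (3 + 384 * (x / y)))) (div_pos (by linarith) (by positivity))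
    have e : -B / (2 * (3 + 384 * (x / y))) * (3 + 384 * (x / y)) = -B / 2 := by
      field_simp
    rw [e] at this
    linarith
  -- conclusion
  generalize u z' = U at hreal huz ⊢
  generalize v z = V at hreal hvz ⊢
  induction V with
  | bot => simp at hvz
  | top =>
    rw [EReal.add_top_of_ne_bot]
    · exact le_top
    · have : (0 : EReal) ≤ (M : EReal) + ((32 * (‖z‖ * ‖z'‖ / τ ^ 2) ^ n : ℝ) : EReal) * U := by
        apply add_nonneg
        · exact_mod_cast hM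
        · apply mul_nonneg _ huz
          exact_mod_cast hκ.le
      exact (lt_of_lt_of_le EReal.bot_lt_zero this).ne'
  | coe V =>
    induction U with
    | bot => simp at huz
    | top =>
      rw [EReal.coe_mul_top_of_pos hκ, EReal.coe_add_top, EReal.top_add_coe]
      exact le_top
    | coe U =>
      have := hreal U V rfl rfl
      exact_mod_cast this

end Pool.Agent.Lib.MP_1ca924_an
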