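import Pool.Agent.Lib.MP_1ca924_an.Defs
import Pool.Agent.Lib.MP_1ca924_an.Domain

section

/-! # Invariance of the notions under linear isometries -/

set_option autoImplicit false
set_option linter.unusedSectionVars false

open MeasureTheory Metric Set Filter Topology

namespace Pool.Agent.Lib.MP_1ca924_an

variable {E : Type*} [NormedAddCommGroup E] [InnerProductSpace ℝ E] [FiniteDimensional ℝ E]
  [MeasurableSpace E] [BorelSpace E]
variable {F : Type*} [NormedAddCommGroup F] [InnerProductSpace ℝ F] [FiniteDimensional ℝ F]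
  [MeasurableSpace F] [BorelSpace F]

lemma dist_symm_left_iso (e : E ≃ₗᵢ[ℝ] F) (y : F) (x : E) :
    dist (e.symm y) x = dist y (e x) := by
  rw [← e.dist_map, e.apply_symm_apply]

lemma preimage_closedBall_iso (e : E ≃ₗᵢ[ℝ] F) (x : E) (r : ℝ) :
    e ⁻¹' closedBall (e x) r = closedBall x r := by
  ext z
  simp

lemma Hyperharmonic.comp_iso (e : E ≃ₗᵢ[ℝ] F) {Ω : Set F} {u : F → EReal}
    (hu : Hyperharmonic Ω u) : Hyperharmonic (e ⁻¹' Ω) (fun x => u (e x)) := by
  refine ⟨?_, fun x hx => hu.2.1 _ hx, fun x r hr hb c hc => ?_⟩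
  · intro x hx y hy
    have h1 := hu.1 (e x) hx y hy
    have h2 : Tendsto e (𝓝[e ⁻¹' Ω] x) (𝓝[Ω] (e x)) :=
      e.continuous.continuousAt.continuousWithinAt.tendsto_nhdsWithin (fun z hz => hz)
    exact h2.eventually h1
  · have hb' : closedBall (e x) r ⊆ Ω := by
      intro y hy
      have h3 : e.symm y ∈ closedBall x r := by
        rw [mem_closedBall, dist_symm_left_iso]
        exact hy
      have := hb h3
      simpa using this
    have hc' : ∀ z ∈ closedBall (e x) r, (c : EReal) ≤ u z := by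
      intro y hy
      have h3 : e.symm y ∈ closedBall x r := by
        rw [mem_closedBall, dist_symm_left_iso]
        exact hy
      have := hc _ h3
      simpa using this
    have hmp : MeasurePreserving e volume volume := e.measurePreserving
    have hemb : MeasurableEmbedding e := e.toHomeomorph.measurableEmbedding
    have h1 := hu.2.2 (e x) r hr hb' c hc'
    have h2 : ∫⁻ z in closedBall x r, (u (e z) - c).toENNReal
        = ∫⁻ y in closedBall (e x) r, (u y - c).toENNReal := by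
      rw [← preimage_closedBall_iso e]
      exact hmp.setLIntegral_comp_preimage_emb hemb (fun y => (u y - c).toENNReal) _
    have h3 : volume (closedBall x r) = volume (closedBall (e x) r) := by
      rw [← preimage_closedBall_iso e]
      exact hmp.measure_preimage_emb hemb _
    rw [h2, h3]
    exact h1

lemma UpperClass.comp_iso (e : E ≃ₗᵢ[ℝ] F) {Ω : Set F} {f : F → EReal} {u : F → EReal}
    (hu : u ∈ UpperClass Ω f) :
    (fun x => u (e x)) ∈ UpperClass (e ⁻¹' Ω) (fun x => f (e x)) := by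
  obtain ⟨h1, ⟨c, hc⟩, h3⟩ := hu
  refine ⟨h1.comp_iso e, ⟨c, fun x hx => hc _ hx⟩, fun ζ hζ => ?_⟩
  have hfr : e ζ ∈ frontier Ω := by
    have h4 : frontier (e.toHomeomorph ⁻¹' Ω) = e.toHomeomorph ⁻¹' frontier Ω :=
      (e.toHomeomorph.preimage_frontier Ω).symm
    have h5 : ζ ∈ frontier (e.toHomeomorph ⁻¹' Ω) := hζ
    rw [h4] at h5
    exact h5
  refine (h3 _ hfr).trans ?_
  have h2 : Tendsto e (𝓝[e ⁻¹' Ω] ζ) (𝓝[Ω] (e ζ)) :=
    e.continuous.continuousAt.continuousWithinAt.tendsto_nhdsWithin (fun z hz => hz)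
  calc liminf u (𝓝[Ω] (e ζ)) ≤ liminf u (map e (𝓝[e ⁻¹' Ω] ζ)) :=
        liminf_le_liminf_of_le h2
    _ = liminf (fun x => u (e x)) (𝓝[e ⁻¹' Ω] ζ) := rfl

lemma upperSol_comp_iso (e : E ≃ₗᵢ[ℝ] F) (Ω : Set F) (f : F → EReal) (x : E) :
    upperSol (e ⁻¹' Ω) (fun x => f (e x)) x = upperSol Ω f (e x) := by
  apply le_antisymm
  · unfold upperSol
    refine le_iInf₂ fun u hu => ?_
    exact iInf₂_le (fun x => u (e x)) (UpperClass.comp_iso e hu)
  · unfold upperSol
    refine le_iInf₂ fun u hu => ?_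
    have h1 := UpperClass.comp_iso e.symm hu
    have h2 : e.symm ⁻¹' (e ⁻¹' Ω) = Ω := by
      ext z; simp
    have h3 : (fun x => (fun x => f (e x)) (e.symm x)) = f := by
      funext z; simp
    rw [h2, h3] at h1
    have h4 := iInf₂_le (f := fun (v : F → EReal) (_ : v ∈ UpperClass Ω f) => v (e x))
      (fun z => u (e.symm z)) h1
    simpa using h4

lemma lowerSol_comp_iso (e : E ≃ₗᵢ[ℝ] F) (Ω : Set F) (f : F → EReal) (x : E) :
    lowerSol (e ⁻¹' Ω) (fun x => f (e x)) x = lowerSol Ω f (e x) := by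
  unfold lowerSol
  rw [← upperSol_comp_iso e Ω (fun ζ => - f ζ) x]

open InnerProductSpace Laplacian in
lemma laplacian_comp_iso (e : E ≃ₗᵢ[ℝ] F) (h : F → ℝ) (x : E) :
    (Δ (fun x => h (e x))) x = (Δ h) (e x) := by
  let b := stdOrthonormalBasis ℝ E
  rw [laplacian_eq_iteratedFDeriv_orthonormalBasis _ b,
    laplacian_eq_iteratedFDeriv_orthonormalBasis _ (b.map e)]
  apply Finset.sum_congr rfl
  intro i _
  have h1 : iteratedFDeriv ℝ 2 (fun x => h (e x)) x
      = (iteratedFDeriv ℝ 2 h (e x)).compContinuousLinearMap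
        (fun _ => (e.toContinuousLinearEquiv : E →L[ℝ] F)) := by
    have := e.toContinuousLinearEquiv.iteratedFDerivWithin_comp_right (s := univ) h
      uniqueDiffOn_univ (x := x) (mem_univ _) 2
    rw [preimage_univ, iteratedFDerivWithin_univ, iteratedFDerivWithin_univ] at this
    exact this
  rw [h1]
  simp only [ContinuousMultilinearMap.compContinuousLinearMap_apply]
  congr 1
  funext j
  fin_cases j <;> simp

open InnerProductSpace Laplacian in
lemma harmonicOnNhd_comp_iso (e : E ≃ₗᵢ[ℝ] F) {Ω : Set F} {h : F → ℝ}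
    (hh : HarmonicOnNhd h Ω) : HarmonicOnNhd (fun x => h (e x)) (e ⁻¹' Ω) := by
  intro x hx
  have h1 := hh (e x) hx
  refine ⟨?_, ?_⟩
  · have h2 : ContDiffAt ℝ 2 (fun x : E => e x) x := e.contDiff.contDiffAt
    exact ContDiffAt.comp x h1.1 h2
  · have h2 := e.continuous.continuousAt (x := x) |>.eventually h1.2
    filter_upwards [h2] with z hz
    rw [laplacian_comp_iso]
    simpa using hz

lemma IsPWBSolution.comp_iso (e : E ≃ₗᵢ[ℝ] F) {Ω : Set F} {f : F → EReal} {h : F → ℝ}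
    (hs : IsPWBSolution Ω f h) :
    IsPWBSolution (e ⁻¹' Ω) (fun x => f (e x)) (fun x => h (e x)) := by
  refine ⟨harmonicOnNhd_comp_iso e hs.1, fun x hx => ?_⟩
  rw [upperSol_comp_iso, lowerSol_comp_iso]
  exact hs.2 (e x) hx

lemma frontier_preimage_iso (e : E ≃ₗᵢ[ℝ] F) (Ω : Set F) :
    frontier (e ⁻¹' Ω) = e ⁻¹' frontier Ω :=
  (e.toHomeomorph.preimage_frontier Ω).symm

lemma preimage_ball_iso (e : E ≃ₗᵢ[ℝ] F) (x : E) (r : ℝ) :
    e ⁻¹' ball (e x) r = ball x r := by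
  ext z
  simp

lemma BRegular.comp_iso (e : E ≃ₗᵢ[ℝ] F) {Ω : Set F} {y : E}
    (h : BRegular Ω (e y)) : BRegular (e ⁻¹' Ω) y := by
  intro f g hfg hbd
  have h1 := hfg.comp_iso e.symm
  have h2 : e.symm ⁻¹' (e ⁻¹' Ω) = Ω := by
    ext z; simp
  rw [h2] at h1
  obtain ⟨R, hR, M, hM⟩ := hbd
  have hb : ∃ R > 0, ∃ M : ℝ, ∀ ζ ∈ ball (e y) R ∩ frontier Ω,
      ((-M : ℝ) : EReal) ≤ f (e.symm ζ) ∧ f (e.symm ζ) ≤ (M : EReal) := by
    refine ⟨R, hR, M, ?_⟩
    rintro ζ ⟨hζ1, hζ2⟩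
    apply hM
    refine ⟨?_, ?_⟩
    · rw [mem_ball, dist_symm_left_iso]
      exact hζ1
    · rw [frontier_preimage_iso, mem_preimage, e.apply_symm_apply]
      exact hζ2
  obtain ⟨r, hr, C, hC⟩ := h _ _ h1 hb
  refine ⟨r, hr, C, ?_⟩
  rintro x ⟨hx1, hx2⟩
  have h3 := hC (e x) ⟨by
    rw [← preimage_ball_iso e] at hx1
    exact hx1, hx2⟩
  rw [e.symm_apply_apply] at h3
  exact h3

end Pool.Agent.Lib.MP_1ca924_an
end

section

/-! # `0` is not `B`-regular for `B(0,r) ∩ Om` -/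

set_option autoImplicit false
set_option linter.unusedSectionVars false

open MeasureTheory Metric Set Filter Topology Classical

namespace Pool.Agent.Lib.MP_1ca924_an

/-- fast growing constants -/
noncomputable def Mj (j : ℕ) : ℝ := ((j : ℝ) + 1) ^ (nj j + 1)

lemma Mj_pos (j : ℕ) : 0 < Mj j := by unfold Mj; positivity

/-- holomorphic building block -/
noncomputable def Hj (j : ℕ) (z : ℂ) : ℂ :=
  if z ∈ sec (nj j) then (Mj j : ℂ) * (-z ^ nj j) else 0

/-- the building block `G_j = Im H_j` -/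
noncomputable def Gj (j : ℕ) (z : ℂ) : ℝ :=
  if z ∈ sec (nj j) then Mj j * (-z ^ nj j).im else 0

lemma im_Hj (j : ℕ) (z : ℂ) : (Hj j z).im = Gj j z := by
  unfold Hj Gj
  split_ifs
  · rw [Complex.im_ofReal_mul]
  · simp

lemma Gj_nonneg (j : ℕ) (z : ℂ) : 0 ≤ Gj j z := by
  unfold Gj
  split_ifs with h
  · exact (mul_pos (Mj_pos j) (im_neg_pow_pos (nj_four j) h)).le
  · exact le_rfl

lemma continuous_Gj (j : ℕ) : Continuous (Gj j) := by
  unfold Gj
  apply Continuous.if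
  · intro a ha
    have := im_pow_frontier (nj_four j) (ζ := a) ha
    simp [this]
  · fun_prop
  · exact continuous_const

lemma Gj_le (j : ℕ) {z : ℂ} (hz : ‖z‖ ≤ 1) : Gj j z ≤ Mj j := by
  unfold Gj
  split_ifs with h
  · have h1 : (-z ^ nj j).im ≤ 1 := by
      calc (-z ^ nj j).im ≤ ‖-z ^ nj j‖ := Complex.im_le_norm _
        _ = ‖z‖ ^ nj j := by rw [norm_neg, norm_pow]
        _ ≤ 1 := pow_le_one₀ (norm_nonneg _) hz
    have := Mj_pos j
    nlinarith
  · exact (Mj_pos j).le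

/-- The function `F = Σ G_j`. -/
noncomputable def FF (z : ℂ) : ℝ := ∑' j, Gj j z

lemma Gj_of_ne {i j : ℕ} {z : ℂ} (hz : z ∈ sec (nj i)) (hij : j ≠ i) : Gj j z = 0 := by
  unfold Gj
  rw [if_neg]
  intro h
  exact hij (sec_disjoint h hz)

lemma FF_of_mem {i : ℕ} {z : ℂ} (hz : z ∈ sec (nj i)) : FF z = Gj i z := by
  unfold FF
  exact tsum_eq_single i (fun j hj => Gj_of_ne hz hj)

lemma FF_of_notMem {z : ℂ} (hz : ∀ i, z ∉ sec (nj i)) : FF z = 0 := by
  unfold FF
  have : ∀ j, Gj j z = 0 := fun j => by unfold Gj; rw [if_neg (hz j)]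
  simp [this]

lemma FF_nonneg (z : ℂ) : 0 ≤ FF z := tsum_nonneg (fun j => Gj_nonneg j z)

/-- partial sums -/
noncomputable def FN (N : ℕ) (z : ℂ) : ℝ := ∑ j ∈ Finset.range N, Gj j z

lemma continuous_FN (N : ℕ) : Continuous (FN N) := by
  unfold FN
  exact continuous_finsetSum _ (fun j _ => continuous_Gj j)

lemma FN_le_FF (N : ℕ) (z : ℂ) : FN N z ≤ FF z := by
  by_cases h : ∃ i, z ∈ sec (nj i)
  · obtain ⟨i, hi⟩ := h
    rw [FF_of_mem hi]
    unfold FN
    by_cases hN : i ∈ Finset.range N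
    · rw [Finset.sum_eq_single_of_mem i hN (fun j _ hj => Gj_of_ne hi hj)]
    · rw [Finset.sum_eq_zero]
      · exact Gj_nonneg i z
      · intro j hj
        apply Gj_of_ne hi
        rintro rfl
        exact hN hj
  · push Not at h
    rw [FF_of_notMem h]
    unfold FN
    rw [Finset.sum_eq_zero]
    intro j _
    unfold Gj
    rw [if_neg (h j)]

lemma FN_eq_FF {i N : ℕ} (hN : i < N) {z : ℂ} (hz : z ∈ sec (nj i)) : FN N z = FF z := by
  rw [FF_of_mem hz]
  unfold FN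
  exact Finset.sum_eq_single_of_mem i (Finset.mem_range.2 hN) (fun j _ hj => Gj_of_ne hz hj)

lemma FN_le (N : ℕ) {z : ℂ} (hz : ‖z‖ ≤ 1) : FN N z ≤ ∑ j ∈ Finset.range N, Mj j := by
  unfold FN
  exact Finset.sum_le_sum (fun j _ => Gj_le j hz)

/-- local holomorphic representation -/
lemma differentiableOn_Hj (j : ℕ) : DifferentiableOn ℂ (Hj j) (⋃ i, sec (nj i)) := by
  intro z hz
  rw [mem_iUnion] at hz
  obtain ⟨i, hi⟩ := hz
  have hopen := (isOpen_sec (nj_four i)).mem_nhds hi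
  apply DifferentiableAt.differentiableWithinAt
  by_cases hij : j = i
  · subst hij
    have : Hj j =ᶠ[𝓝 z] fun w => (Mj j : ℂ) * (-w ^ nj j) := by
      filter_upwards [hopen] with w hw
      simp [Hj, hw]
    rw [this.differentiableAt_iff]
    fun_prop
  · have : Hj j =ᶠ[𝓝 z] fun _ => 0 := by
      filter_upwards [hopen] with w hw
      unfold Hj
      rw [if_neg]
      intro h
      exact hij (sec_disjoint h hw)
    rw [this.differentiableAt_iff]
    exact differentiableAt_const _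

/-- the region `B(0,r) ∩ Om` -/
lemma sub_union {r : ℝ} (hr : r ≤ 1) : ball (0:ℂ) r ∩ Om ⊆ ⋃ i, sec (nj i) := by
  rintro z ⟨hz1, hz2⟩
  have hz1' : ‖z‖ < r := by simpa using hz1
  obtain ⟨i, hi⟩ := (mem_Om_iff (by linarith)).1 hz2
  exact mem_iUnion.2 ⟨i, hi⟩

/-- total holomorphic function -/
noncomputable def HH (z : ℂ) : ℂ := ∑' j, Hj j z

lemma Hj_of_ne {i j : ℕ} {z : ℂ} (hz : z ∈ sec (nj i)) (hij : j ≠ i) : Hj j z = 0 := by
  unfold Hj
  rw [if_neg]
  intro h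
  exact hij (sec_disjoint h hz)

lemma HH_of_mem {i : ℕ} {z : ℂ} (hz : z ∈ sec (nj i)) : HH z = Hj i z := by
  unfold HH
  exact tsum_eq_single i (fun j hj => Hj_of_ne hz hj)

lemma differentiableOn_HH : DifferentiableOn ℂ HH (⋃ i, sec (nj i)) := by
  intro z hz
  rw [mem_iUnion] at hz
  obtain ⟨i, hi⟩ := hz
  have hopen := (isOpen_sec (nj_four i)).mem_nhds hi
  apply DifferentiableAt.differentiableWithinAt
  have : HH =ᶠ[𝓝 z] fun w => (Mj i : ℂ) * (-w ^ nj i) := by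
    filter_upwards [hopen] with w hw
    rw [HH_of_mem hw]
    simp [Hj, hw]
  rw [this.differentiableAt_iff]
  fun_prop

lemma im_HH {z : ℂ} (hz : z ∈ ⋃ i, sec (nj i)) : (HH z).im = FF z := by
  rw [mem_iUnion] at hz
  obtain ⟨i, hi⟩ := hz
  rw [HH_of_mem hi, FF_of_mem hi, im_Hj]

lemma harmonicOnNhd_FF {U : Set ℂ} (hU : U ⊆ ⋃ i, sec (nj i)) :
    InnerProductSpace.HarmonicOnNhd FF U := by
  intro z hz
  have hz' := hU hz
  rw [mem_iUnion] at hz'
  obtain ⟨i, hi⟩ := hz'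
  have hopen := (isOpen_sec (nj_four i)).mem_nhds hi
  have hev : FF =ᶠ[𝓝 z] fun w => ((Mj i : ℂ) * (-w ^ nj i)).im := by
    filter_upwards [hopen] with w hw
    rw [FF_of_mem hw, ← im_Hj]
    simp [Hj, hw]
  rw [InnerProductSpace.harmonicAt_congr_nhds hev]
  have hd : Differentiable ℂ (fun w : ℂ => (Mj i : ℂ) * (-w ^ nj i)) := by fun_prop
  exact AnalyticAt.harmonicAt_im (hd.analyticAt z)

/-- the region `B(0,r) ∩ Om` -/
def OmR (r : ℝ) : Set ℂ := ball (0:ℂ) r ∩ Om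

lemma isOpen_OmR (r : ℝ) : IsOpen (OmR r) := isOpen_ball.inter isOpen_Om

lemma isBounded_OmR (r : ℝ) : Bornology.IsBounded (OmR r) :=
  isBounded_ball.subset inter_subset_left

lemma FF_lsc_at (ζ : ℂ) {a : ℝ} (ha : a < FF ζ) : ∀ᶠ z in 𝓝 ζ, a < FF z := by
  by_cases h : ∃ i, ζ ∈ sec (nj i)
  · obtain ⟨i, hi⟩ := h
    have hopen := (isOpen_sec (nj_four i)).mem_nhds hi
    rw [FF_of_mem hi] at ha
    filter_upwards [hopen, (continuous_Gj i).continuousAt.eventually (lt_mem_nhds ha)] with w hw h1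
    rw [FF_of_mem hw]
    exact h1
  · push Not at h
    rw [FF_of_notMem h] at ha
    filter_upwards with w
    exact ha.trans_le (FF_nonneg w)

lemma FF_upper {r : ℝ} (hr : r ≤ 1) :
    (fun z => ((FF z : ℝ) : EReal)) ∈ UpperClass (OmR r) (fun ζ => ((FF ζ : ℝ) : EReal)) := by
  refine ⟨?_, ⟨0, fun x _ => ?_⟩, fun ζ _ => ?_⟩
  · have h1 : Hyperharmonic (OmR r) (fun z => (((HH z).im : ℝ) : EReal)) :=
      hyperharmonic_im (differentiableOn_HH.mono (sub_union hr))
    apply h1.congr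
    intro x hx
    rw [im_HH (sub_union hr hx)]
  · exact EReal.coe_le_coe_iff.2 (FF_nonneg x)
  · apply le_of_forall_lt
    intro a ha
    obtain ⟨b, hb1, hb2⟩ := EReal.lt_iff_exists_real_btwn.1 ha
    refine lt_of_lt_of_le hb1 ?_
    have hb3 : b < FF ζ := EReal.coe_lt_coe_iff.1 hb2
    apply le_liminf_of_le
    · isBoundedDefault
    · apply nhdsWithin_le_nhds
      filter_upwards [FF_lsc_at ζ hb3] with z hz
      exact_mod_cast hz.le

lemma FN_lower {r : ℝ} (hr : r ≤ 1) (N : ℕ) :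
    (fun z => ((-FN N z : ℝ) : EReal)) ∈
      UpperClass (OmR r) (fun ζ => -((FF ζ : ℝ) : EReal)) := by
  refine ⟨?_, ⟨-∑ j ∈ Finset.range N, Mj j, fun x hx => ?_⟩, fun ζ _ => ?_⟩
  · have hd : DifferentiableOn ℂ (fun z => -∑ j ∈ Finset.range N, Hj j z) (⋃ i, sec (nj i)) := by
      apply DifferentiableOn.neg
      apply DifferentiableOn.fun_sum
      intro j _
      exact differentiableOn_Hj j
    have h1 : Hyperharmonic (OmR r)
        (fun z => (((-∑ j ∈ Finset.range N, Hj j z).im : ℝ) : EReal)) :=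
      hyperharmonic_im (hd.mono (sub_union hr))
    apply h1.congr
    intro x hx
    rw [Complex.neg_im, Complex.im_sum]
    simp only [im_Hj]
    rfl
  · have hx1 : ‖x‖ < r := by simpa using hx.1
    have := FN_le N (z := x) (by linarith)
    exact EReal.coe_le_coe_iff.2 (neg_le_neg this)
  · apply le_of_forall_lt
    intro a ha
    obtain ⟨b, hb1, hb2⟩ := EReal.lt_iff_exists_real_btwn.1 ha
    refine lt_of_lt_of_le hb1 ?_
    have hb3 : b < -FN N ζ := by
      have h2 : b < - FF ζ := by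
        have hb4 : (b : EReal) < -((FF ζ : ℝ) : EReal) := hb2
        rw [← EReal.coe_neg] at hb4
        exact EReal.coe_lt_coe_iff.1 hb4
      linarith [FN_le_FF N ζ]
    apply le_liminf_of_le
    · isBoundedDefault
    · apply nhdsWithin_le_nhds
      have hc : Continuous fun z => -FN N z := (continuous_FN N).neg
      filter_upwards [hc.continuousAt.eventually (lt_mem_nhds hb3)] with z hz
      exact_mod_cast hz.le

/-- `FF` is the Perron-Wiener-Brelot solution for its own boundary values. -/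
theorem FF_solution {r : ℝ} (hr : r ≤ 1) :
    IsPWBSolution (OmR r) (fun ζ => ((FF ζ : ℝ) : EReal)) FF := by
  refine ⟨harmonicOnNhd_FF (sub_union hr), fun x hx => ?_⟩
  have h1 : upperSol (OmR r) (fun ζ => ((FF ζ : ℝ) : EReal)) x ≤ ((FF x : ℝ) : EReal) :=
    iInf₂_le _ (FF_upper hr)
  have h2 : ((FF x : ℝ) : EReal) ≤ lowerSol (OmR r) (fun ζ => ((FF ζ : ℝ) : EReal)) x := by
    unfold lowerSol
    rw [EReal.le_neg]
    have hx' := sub_union hr hx
    rw [mem_iUnion] at hx'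
    obtain ⟨i, hi⟩ := hx'
    have h3 : upperSol (OmR r) (fun ζ => -((FF ζ : ℝ) : EReal)) x
        ≤ ((-FN (i + 1) x : ℝ) : EReal) := iInf₂_le _ (FN_lower hr (i + 1))
    rw [FN_eq_FF (Nat.lt_succ_self i) hi, EReal.coe_neg] at h3
    exact h3
  have h4 := lowerSol_le_upperSol (isOpen_OmR r) (isBounded_OmR r)
    (fun ζ => ((FF ζ : ℝ) : EReal)) hx
  exact ⟨le_antisymm h1 (h2.trans h4), le_antisymm (h4.trans h1) h2⟩

/-- The boundary values vanish near `0`. -/
lemma FF_boundary {r : ℝ} (hr : r ≤ 1) : ∀ ζ ∈ ball (0:ℂ) r ∩ frontier (OmR r), FF ζ = 0 := by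
  rintro ζ ⟨hζ1, hζ2⟩
  apply FF_of_notMem
  intro i hi
  rw [(isOpen_OmR r).frontier_eq] at hζ2
  apply hζ2.2
  have hζ1' : ‖ζ‖ < r := by simpa using hζ1
  exact ⟨hζ1, (mem_Om_iff (by linarith)).2 ⟨i, hi⟩⟩

/-- `FF` is unbounded near `0`. -/
lemma FF_unbounded {r ρ : ℝ} (hr0 : 0 < r) (hr : r ≤ 1) (hρ : 0 < ρ) (C : ℝ) :
    ∃ x ∈ ball (0:ℂ) ρ ∩ OmR r, C < |FF x| := by
  set t : ℝ := min ρ r / 2 with ht
  have hmin : 0 < min ρ r := lt_min hρ hr0
  have ht0 : 0 < t := by positivity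
  have htρ : t < ρ := by have := min_le_left ρ r; linarith
  have htr : t < r := by have := min_le_right ρ r; linarith
  obtain ⟨j, hj⟩ := exists_nat_gt (max (1 / t) C)
  have hj1 : 1 / t < j := (le_max_left _ _).trans_lt hj
  have hj2 : C < j := (le_max_right _ _).trans_lt hj
  have hmem : P (nj j) t (Real.pi / 2) ∈ sec (nj j) :=
    P_mem (nj_four j) ht0 ⟨by positivity, by linarith [Real.pi_pos]⟩
  have hnorm : ‖P (nj j) t (Real.pi / 2)‖ = t := norm_P ht0.le
  refine ⟨P (nj j) t (Real.pi / 2), ⟨?_, ?_, ?_⟩, ?_⟩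
  · rw [mem_ball_zero_iff, hnorm]; exact htρ
  · rw [mem_ball_zero_iff, hnorm]; exact htr
  · exact (mem_Om_iff (by rw [hnorm]; linarith)).2 ⟨j, hmem⟩
  · rw [FF_of_mem hmem, abs_of_nonneg (Gj_nonneg _ _)]
    unfold Gj
    rw [if_pos hmem, neg_P_pow (nj_four j), ← Complex.ofReal_pow, Complex.im_ofReal_mul,
      Complex.exp_ofReal_mul_I_im, Real.sin_pi_div_two, mul_one]
    unfold Mj
    have h1 : 1 ≤ ((j : ℝ) + 1) * t := by
      rw [div_lt_iff₀ ht0] at hj1
      nlinarith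
    have h2 : (1 : ℝ) ≤ (((j : ℝ) + 1) * t) ^ nj j := one_le_pow₀ h1
    calc C < j + 1 := by linarith
      _ = (j + 1) * 1 := by ring
      _ ≤ (j + 1) * (((j : ℝ) + 1) * t) ^ nj j := by gcongr
      _ = ((j : ℝ) + 1) ^ (nj j + 1) * t ^ nj j := by rw [mul_pow]; ring

/-- `0` is not `B`-regular for `B(0,r) ∩ Om`, `0 < r ≤ 1`. -/
theorem not_BRegular_OmR {r : ℝ} (hr0 : 0 < r) (hr : r ≤ 1) : ¬ BRegular (OmR r) (0:ℂ) := by
  intro h
  obtain ⟨ρ, hρ, C, hC⟩ := h _ _ (FF_solution hr) ⟨r, hr0, 0, fun ζ hζ => by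
    rw [FF_boundary hr ζ hζ]; simp⟩
  obtain ⟨x, hx, hx2⟩ := FF_unbounded hr0 hr hρ C
  exact absurd (hC x hx) (not_le.2 hx2)

end Pool.Agent.Lib.MP_1ca924_an
end

section

/-! # `0` is `B`-regular for the planar domain `Om` -/

set_option autoImplicit false
set_option linter.unusedSectionVars false

open MeasureTheory Metric Set Filter Topology

namespace Pool.Agent.Lib.MP_1ca924_an

lemma one_sided {f : ℂ → EReal} {h : ℂ → ℝ}
    (hup : ∀ x ∈ Om, upperSol Om f x = (h x : EReal))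
    (hlow : ∀ x ∈ Om, lowerSol Om f x = (h x : EReal))
    {R M : ℝ} (hR : 0 < R) (hM : ∀ ζ ∈ ball (0:ℂ) R ∩ frontier Om, f ζ ≤ (M : EReal)) :
    ∃ r > 0, ∃ C : ℝ, ∀ x ∈ ball (0:ℂ) r ∩ Om, h x ≤ C := by
  -- an upper function, finite at `2`
  obtain ⟨u, huf, hu2⟩ : ∃ u ∈ UpperClass Om f, u 2 < ⊤ := by
    have h1 : upperSol Om f 2 < ⊤ := by rw [hup 2 two_mem_Om]; exact EReal.coe_lt_top _
    unfold upperSol at h1
    rw [iInf_lt_iff] at h1
    obtain ⟨u, hu⟩ := h1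
    rw [iInf_lt_iff] at hu
    obtain ⟨hu1, hu2⟩ := hu
    exact ⟨u, hu1, hu2⟩
  obtain ⟨huh, ⟨c, hc⟩, hul⟩ := huf
  have hu2b := huh.2.1 2 two_mem_Om
  set c₀ : ℝ := max (-c) 0 with hc₀
  have hc₀0 : 0 ≤ c₀ := le_max_right _ _
  set w : ℂ → EReal := fun z => u z + (c₀ : EReal) with hw
  have hwh : Hyperharmonic Om w := huh.add_const isOpen_Om c₀
  have hw0 : ∀ z ∈ Om, 0 ≤ w z := by
    intro z hz
    have h1 := hc z hz
    have h2 : 0 ≤ c + c₀ := by have := le_max_left (-c) 0; linarith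
    calc (0 : EReal) ≤ ((c + c₀ : ℝ) : EReal) := by exact_mod_cast h2
      _ = (c : EReal) + (c₀ : EReal) := by rw [EReal.coe_add]
      _ ≤ u z + (c₀ : EReal) := add_le_add h1 le_rfl
  obtain ⟨a, ha⟩ : ∃ a : ℝ, u 2 = (a : EReal) :=
    ⟨(u 2).toReal, (EReal.coe_toReal hu2.ne hu2b.ne').symm⟩
  have hwA : w 2 = ((a + c₀ : ℝ) : EReal) := by
    simp only [hw, ha, EReal.coe_add]
  set A := a + c₀ with hA
  set M' : ℝ := max M 0 with hM'
  refine ⟨(min (R / 2) (1 / 2)) ^ 2 / 5, ?_, M' + 512 * A, ?_⟩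
  · have : 0 < min (R / 2) (1 / 2) := lt_min (by linarith) (by norm_num)
    positivity
  · rintro z ⟨hz1, hz2⟩
    have hz1' : ‖z‖ < (min (R / 2) (1 / 2)) ^ 2 / 5 := by simpa using hz1
    have hall : ∀ v ∈ UpperClass Om (fun ζ => - f ζ), ((-(M' + 512 * A) : ℝ) : EReal) ≤ v z := by
      intro v hv
      have huv : ∀ x ∈ Om, 0 ≤ w x + v x := by
        intro x hx
        have h1 := upper_add_upper_nonneg isOpen_Om isBounded_Om
          (show u ∈ UpperClass Om f from ⟨huh, ⟨c, hc⟩, hul⟩) hv x hx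
        have h2 : u x ≤ w x := by
          simp only [hw]
          calc u x = u x + 0 := (add_zero _).symm
            _ ≤ u x + (c₀ : EReal) := add_le_add le_rfl (by exact_mod_cast hc₀0)
        exact h1.trans (add_le_add h2 le_rfl)
      have hwall : ∀ ζ ∈ frontier Om, ‖ζ‖ < R → ∀ ε : ℝ, 0 < ε →
          ∀ᶠ x in 𝓝[Om] ζ, ((-M' - ε : ℝ) : EReal) < v x := by
        intro ζ hζ hζR ε hε
        have h1 : f ζ ≤ (M : EReal) := hM ζ ⟨by rw [mem_ball_zero_iff]; exact hζR, hζ⟩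
        have h2 : - f ζ ≤ liminf v (𝓝[Om] ζ) := hv.2.2 ζ hζ
        have h3 : ((-M' - ε : ℝ) : EReal) < liminf v (𝓝[Om] ζ) := by
          refine lt_of_lt_of_le ?_ h2
          have h4 : ((-M : ℝ) : EReal) ≤ - f ζ := by
            rw [EReal.coe_neg]
            exact EReal.neg_le_neg_iff.2 h1
          refine lt_of_lt_of_le ?_ h4
          have : M ≤ M' := le_max_left _ _
          exact_mod_cast (by linarith)
        exact eventually_lt_of_lt_liminf h3
      exact core hR (le_max_right _ _) hwh hw0 hwA hv.1 huv hwall hz2 hz1'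
    have h1 := hlow z hz2
    have h2 : ((-(M' + 512 * A) : ℝ) : EReal) ≤ upperSol Om (fun ζ => - f ζ) z :=
      le_iInf₂ hall
    unfold lowerSol at h1
    have h3 : ((h z : ℝ) : EReal) ≤ ((M' + 512 * A : ℝ) : EReal) := by
      rw [← h1, EReal.neg_le]
      rw [EReal.coe_neg] at h2
      exact h2
    exact_mod_cast h3

/-- `0` is `B`-regular for `Om` (the harmonicity of the solution is not even used). -/
theorem regular_Om {f : ℂ → EReal} {h : ℂ → ℝ}
    (hsol : ∀ x ∈ Om, upperSol Om f x = (h x : EReal) ∧ lowerSol Om f x = (h x : EReal))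
    (hbd : ∃ R > 0, ∃ M : ℝ, ∀ ζ ∈ ball (0:ℂ) R ∩ frontier Om,
      ((-M : ℝ) : EReal) ≤ f ζ ∧ f ζ ≤ (M : EReal)) :
    ∃ r > 0, ∃ C : ℝ, ∀ x ∈ ball (0:ℂ) r ∩ Om, |h x| ≤ C := by
  obtain ⟨R, hR, M, hM⟩ := hbd
  obtain ⟨r₁, hr₁, C₁, hC₁⟩ := one_sided (fun x hx => (hsol x hx).1) (fun x hx => (hsol x hx).2)
    hR (fun ζ hζ => (hM ζ hζ).2)
  have hup : ∀ x ∈ Om, upperSol Om (fun ζ => - f ζ) x = ((-h x : ℝ) : EReal) := by
    intro x hx
    have := (hsol x hx).2
    unfold lowerSol at this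
    rw [EReal.coe_neg, ← this, neg_neg]
  have hlow : ∀ x ∈ Om, lowerSol Om (fun ζ => - f ζ) x = ((-h x : ℝ) : EReal) := by
    intro x hx
    have := (hsol x hx).1
    unfold lowerSol
    simp only [neg_neg]
    rw [this, EReal.coe_neg]
  obtain ⟨r₂, hr₂, C₂, hC₂⟩ := one_sided (h := fun x => - h x) hup hlow hR (M := M) (fun ζ hζ => by
    have h1 := (hM ζ hζ).1
    rw [EReal.coe_neg] at h1
    exact EReal.neg_le.1 h1)
  refine ⟨min r₁ r₂, lt_min hr₁ hr₂, max C₁ C₂, ?_⟩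
  rintro x ⟨hx1, hx2⟩
  have hx1' : ‖x‖ < min r₁ r₂ := by simpa using hx1
  rw [abs_le]
  have h1 := hC₁ x ⟨by rw [mem_ball_zero_iff]; exact hx1'.trans_le (min_le_left _ _), hx2⟩
  have h2 := hC₂ x ⟨by rw [mem_ball_zero_iff]; exact hx1'.trans_le (min_le_right _ _), hx2⟩
  have h3 := le_max_left C₁ C₂
  have h4 := le_max_right C₁ C₂
  constructor <;> linarith

end Pool.Agent.Lib.MP_1ca924_an
end
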