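import Pool.Agent.Lib.MP_1ca924_an.Sine

/-! # Geometry of thin sectors -/

set_option autoImplicit false
set_option linter.unusedSectionVars false

open MeasureTheory Metric Set Filter Topology

namespace Pool.Agent.Lib.MP_1ca924_an

/-- The open sector `π/n < arg z < 2π/n`. -/
def sec (n : ℕ) : Set ℂ := {z | Real.pi / n < z.arg ∧ z.arg < 2 * Real.pi / n}

lemma sec_bounds {n : ℕ} (hn : 4 ≤ n) : 0 < Real.pi / n ∧ 2 * Real.pi / n ≤ Real.pi / 2 := by
  have hn' : (4 : ℝ) ≤ n := by exact_mod_cast hn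
  constructor
  · positivity
  · rw [div_le_iff₀ (by linarith)]
    nlinarith [Real.pi_pos]

lemma sec_ne_zero {n : ℕ} (hn : 4 ≤ n) {z : ℂ} (hz : z ∈ sec n) : z ≠ 0 := by
  rintro rfl
  have := (sec_bounds hn).1
  have h2 := hz.1
  simp at h2
  linarith

lemma sec_re_pos {n : ℕ} (hn : 4 ≤ n) {z : ℂ} (hz : z ∈ sec n) : 0 < z.re := by
  have h1 := sec_bounds hn
  have hz0 := sec_ne_zero hn hz
  have hcos : 0 < Real.cos z.arg := by
    apply Real.cos_pos_of_mem_Ioo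
    constructor
    · have := hz.1; linarith [Real.pi_pos]
    · exact lt_of_lt_of_le hz.2 h1.2
  have : z.re = ‖z‖ * Real.cos z.arg := by
    rw [Complex.norm_mul_cos_arg]
  rw [this]
  exact mul_pos (norm_pos_iff.2 hz0) hcos

lemma isOpen_sec {n : ℕ} (hn : 4 ≤ n) : IsOpen (sec n) := by
  rw [isOpen_iff_mem_nhds]
  intro z hz
  have hsl : z ∈ Complex.slitPlane := Or.inl (sec_re_pos hn hz)
  have hc := Complex.continuousAt_arg hsl
  have := hc.preimage_mem_nhds (isOpen_Ioo.mem_nhds (show z.arg ∈ Ioo (Real.pi / n) (2 * Real.pi / n)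
    from ⟨hz.1, hz.2⟩))
  exact this

/-- polar parametrisation -/
noncomputable def P (n : ℕ) (τ θ : ℝ) : ℂ :=
  τ * Complex.exp (((Real.pi + θ) / n : ℝ) * Complex.I)

lemma continuous_P (n : ℕ) (τ : ℝ) : Continuous (P n τ) := by
  unfold P
  fun_prop

lemma norm_P {n : ℕ} {τ θ : ℝ} (hτ : 0 ≤ τ) : ‖P n τ θ‖ = τ := by
  unfold P
  rw [norm_mul, Complex.norm_exp_ofReal_mul_I, mul_one, Complex.norm_real,
    Real.norm_of_nonneg hτ]

lemma arg_P {n : ℕ} (hn : 4 ≤ n) {τ θ : ℝ} (hτ : 0 < τ) (h0 : 0 ≤ θ) (hπ : θ ≤ Real.pi) :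
    (P n τ θ).arg = (Real.pi + θ) / n := by
  have hb := sec_bounds hn
  have hn' : (0 : ℝ) < n := by positivity
  unfold P
  rw [Complex.exp_mul_I]
  have hle : (Real.pi + θ) / n ≤ 2 * Real.pi / n := by gcongr; linarith
  have h0' : 0 ≤ (Real.pi + θ) / n := by positivity
  have := Complex.arg_mul_cos_add_sin_mul_I hτ (θ := (Real.pi + θ) / n)
    ⟨by linarith [Real.pi_pos], by linarith [Real.pi_pos]⟩
  exact_mod_cast this

lemma P_mem {n : ℕ} (hn : 4 ≤ n) {τ θ : ℝ} (hτ : 0 < τ) (hθ : θ ∈ Ioo 0 Real.pi) :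
    P n τ θ ∈ sec n := by
  have hn' : (0 : ℝ) < n := by positivity
  have := arg_P hn hτ hθ.1.le hθ.2.le
  refine ⟨?_, ?_⟩
  · rw [this]
    gcongr
    linarith [hθ.1]
  · rw [this]
    gcongr
    linarith [hθ.2]

lemma neg_P_pow {n : ℕ} (hn : 4 ≤ n) {τ θ : ℝ} :
    -(P n τ θ) ^ n = (τ : ℂ) ^ n * Complex.exp (θ * Complex.I) := by
  have hn' : (n : ℂ) ≠ 0 := by
    have : n ≠ 0 := by omega
    exact_mod_cast this
  unfold P
  rw [mul_pow, ← Complex.exp_nat_mul]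
  have : (n : ℂ) * ((((Real.pi + θ) / n : ℝ) : ℂ) * Complex.I)
      = Real.pi * Complex.I + θ * Complex.I := by
    push_cast
    field_simp
  rw [this, Complex.exp_add, Complex.exp_pi_mul_I]
  ring

/-- every point of the sector has the polar form -/
lemma exists_P {n : ℕ} (hn : 4 ≤ n) {z : ℂ} (hz : z ∈ sec n) :
    ∃ θ ∈ Ioo 0 Real.pi, z = P n ‖z‖ θ := by
  have hn' : (0 : ℝ) < n := by positivity
  refine ⟨n * z.arg - Real.pi, ⟨?_, ?_⟩, ?_⟩
  · have := hz.1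
    rw [div_lt_iff₀ hn'] at this
    linarith
  · have := hz.2
    rw [lt_div_iff₀ hn'] at this
    linarith
  · unfold P
    have : (Real.pi + (n * z.arg - Real.pi)) / n = z.arg := by field_simp; ring
    rw [this]
    exact (Complex.norm_mul_exp_arg_mul_I z).symm

lemma im_neg_pow_pos {n : ℕ} (hn : 4 ≤ n) {z : ℂ} (hz : z ∈ sec n) : 0 < (-z ^ n).im := by
  obtain ⟨θ, hθ, hP⟩ := exists_P hn hz
  have hz0 := norm_pos_iff.2 (sec_ne_zero hn hz)
  rw [hP, neg_P_pow hn, ← Complex.ofReal_pow, Complex.im_ofReal_mul, Complex.exp_ofReal_mul_I_im]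
  exact mul_pos (pow_pos hz0 n) (Real.sin_pos_of_pos_of_lt_pi hθ.1 hθ.2)

/-- On the boundary of the sector `z^n` is real. -/
lemma im_pow_frontier {n : ℕ} (hn : 4 ≤ n) {ζ : ℂ} (hζ : ζ ∈ frontier (sec n)) :
    (ζ ^ n).im = 0 := by
  have hn' : (0 : ℝ) < n := by positivity
  rw [(isOpen_sec hn).frontier_eq] at hζ
  by_cases h0 : ζ = 0
  · rw [h0, zero_pow (by omega)]; simp
  have hre : 0 ≤ ζ.re := by
    have hcl : IsClosed {z : ℂ | 0 ≤ z.re} := isClosed_le continuous_const Complex.continuous_re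
    exact closure_minimal (fun z hz => (sec_re_pos hn hz).le) hcl hζ.1
  have hsl : ζ ∈ Complex.slitPlane := by
    rw [Complex.mem_slitPlane_iff]
    by_contra hcon
    push Not at hcon
    apply h0
    apply Complex.ext
    · simp; linarith [hcon.1]
    · simpa using hcon.2
  have hc := Complex.continuousAt_arg hsl
  have hmem : ζ.arg ∈ Icc (Real.pi / n) (2 * Real.pi / n) := by
    have h1 : ζ.arg ∈ closure (Ioo (Real.pi / n) (2 * Real.pi / n)) := by
      have h2 : MapsTo Complex.arg (sec n) (Ioo (Real.pi / n) (2 * Real.pi / n)) :=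
        fun z hz => ⟨hz.1, hz.2⟩
      have h3 : (𝓝[sec n] ζ).NeBot := mem_closure_iff_nhdsWithin_neBot.1 hζ.1
      exact mem_closure_of_tendsto (f := Complex.arg) (b := 𝓝[sec n] ζ)
        (hc.tendsto.mono_left nhdsWithin_le_nhds) (eventually_nhdsWithin_of_forall h2)
    exact closure_minimal Ioo_subset_Icc_self isClosed_Icc h1
  have hpow : ζ ^ n = (‖ζ‖ : ℂ) ^ n * Complex.exp ((n * ζ.arg : ℝ) * Complex.I) := by
    conv_lhs => rw [← Complex.norm_mul_exp_arg_mul_I ζ]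
    rw [mul_pow, ← Complex.exp_nat_mul]
    push_cast
    ring_nf
  rw [hpow, ← Complex.ofReal_pow, Complex.im_ofReal_mul, Complex.exp_ofReal_mul_I_im]
  have hcase : ζ.arg = Real.pi / n ∨ ζ.arg = 2 * Real.pi / n := by
    by_contra hcon
    push Not at hcon
    apply hζ.2
    exact ⟨lt_of_le_of_ne hmem.1 hcon.1.symm, lt_of_le_of_ne hmem.2 hcon.2⟩
  rcases hcase with h | h
  · rw [h, mul_div_cancel₀ _ hn'.ne', Real.sin_pi, mul_zero]
  · rw [h, mul_div_cancel₀ _ hn'.ne', Real.sin_two_pi, mul_zero]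

lemma subset_of_frontier_disjoint {t S : Set ℂ} (ht : IsPreconnected t) (hS : IsOpen S)
    (hne : (t ∩ S).Nonempty) (hd : ∀ z ∈ t, z ∉ frontier S) : t ⊆ S := by
  by_contra hcon
  rw [Set.not_subset] at hcon
  obtain ⟨w, hwt, hwS⟩ := hcon
  have hcover : t ⊆ S ∪ (closure S)ᶜ := by
    intro z hz
    by_cases h : z ∈ S
    · exact Or.inl h
    · right
      intro hcl
      apply hd z hz
      rw [hS.frontier_eq]
      exact ⟨hcl, h⟩
  have hw : w ∈ (closure S)ᶜ := (hcover hwt).resolve_left hwS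
  obtain ⟨x, -, hx1, hx2⟩ := ht S (closure S)ᶜ hS isClosed_closure.isOpen_compl hcover hne
    ⟨w, hwt, hw⟩
  exact hx2 (subset_closure hx1)

lemma norm_one_add_pow_sub_one_le (δ : ℂ) (n : ℕ) :
    ‖(1 + δ) ^ n - 1‖ ≤ (1 + ‖δ‖) ^ n - 1 := by
  induction n with
  | zero => simp
  | succ n ih =>
    have e : (1 + δ) ^ (n + 1) - 1 = (1 + δ) * ((1 + δ) ^ n - 1) + δ := by ring
    rw [e]
    calc ‖(1 + δ) * ((1 + δ) ^ n - 1) + δ‖ ≤ ‖1 + δ‖ * ‖(1 + δ) ^ n - 1‖ + ‖δ‖ := by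
          rw [← norm_mul]; exact norm_add_le _ _
      _ ≤ (1 + ‖δ‖) * ((1 + ‖δ‖) ^ n - 1) + ‖δ‖ := by
          gcongr
          calc ‖1 + δ‖ ≤ ‖(1:ℂ)‖ + ‖δ‖ := norm_add_le _ _
            _ = 1 + ‖δ‖ := by simp
      _ = (1 + ‖δ‖) ^ (n + 1) - 1 := by ring

/-- the reference point in the sector -/
noncomputable def zstar (n : ℕ) : ℂ := P n 2 (Real.pi / 2)

lemma norm_zstar (n : ℕ) : ‖zstar n‖ = 2 := norm_P (by norm_num)

lemma neg_zstar_pow {n : ℕ} (hn : 4 ≤ n) : -(zstar n) ^ n = 2 ^ n * Complex.I := by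
  unfold zstar
  rw [neg_P_pow hn]
  push_cast
  rw [Complex.exp_pi_div_two_mul_I]

lemma near_zstar {n : ℕ} (hn : 4 ≤ n) {z : ℂ} (hz : z ∈ ball (zstar n) (1 / (4 * n))) :
    ‖z‖ ≤ 5 / 2 ∧ 1 ≤ ‖z‖ ∧ ‖z‖ ^ n / 2 ≤ (-z ^ n).im := by
  have hn' : (4 : ℝ) ≤ n := by exact_mod_cast hn
  have hn0 : (0 : ℝ) < n := by linarith
  have hsm : (1 : ℝ) / (4 * n) ≤ 1 / 16 := by
    apply one_div_le_one_div_of_le <;> linarith
  have hd : ‖z - zstar n‖ < 1 / (4 * n) := by simpa [dist_eq_norm] using hz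
  have hns := norm_zstar n
  have h1 : ‖z‖ ≤ ‖zstar n‖ + ‖z - zstar n‖ := by
    calc ‖z‖ = ‖zstar n + (z - zstar n)‖ := by ring_nf
      _ ≤ _ := norm_add_le _ _
  have h2 : ‖zstar n‖ ≤ ‖z‖ + ‖z - zstar n‖ := by
    calc ‖zstar n‖ = ‖z - (z - zstar n)‖ := by ring_nf
      _ ≤ _ := norm_sub_le _ _
  refine ⟨by linarith, by linarith, ?_⟩
  have hz0 : zstar n ≠ 0 := by
    intro h; rw [h] at hns; simp at hns
  set δ : ℂ := (z - zstar n) / zstar n with hδ
  have hδn : ‖δ‖ ≤ 1 / (8 * n) := by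
    rw [hδ, norm_div, hns, div_le_iff₀ (by norm_num)]
    calc ‖z - zstar n‖ ≤ 1 / (4 * n) := hd.le
      _ = 1 / (8 * n) * 2 := by field_simp; ring
  have hzδ : z = zstar n * (1 + δ) := by
    rw [hδ]; field_simp; ring
  have hη : ‖(1 + δ) ^ n - 1‖ ≤ 1 / 7 := by
    refine (norm_one_add_pow_sub_one_le δ n).trans ?_
    have h3 : (1 + ‖δ‖) ^ n ≤ Real.exp (1 / 8) := by
      calc (1 + ‖δ‖) ^ n ≤ (Real.exp ‖δ‖) ^ n := by
            gcongr
            linarith [Real.add_one_le_exp ‖δ‖]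
        _ = Real.exp (n * ‖δ‖) := by rw [← Real.exp_nat_mul]
        _ ≤ Real.exp (1 / 8) := by
            apply Real.exp_le_exp.2
            calc (n : ℝ) * ‖δ‖ ≤ n * (1 / (8 * n)) := by gcongr
              _ = 1 / 8 := by field_simp
    have h4 : Real.exp (1 / 8) ≤ 8 / 7 := by
      have h5 : 1 - 1 / 8 ≤ Real.exp (-(1 / 8)) := by linarith [Real.add_one_le_exp (-(1 / 8 : ℝ))]
      have h6 : Real.exp (1 / 8) * Real.exp (-(1 / 8)) = 1 := by rw [← Real.exp_add]; simp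
      have h7 := Real.exp_pos (1 / 8)
      nlinarith
    linarith
  set η : ℂ := (1 + δ) ^ n - 1 with hηdef
  have hpow : -z ^ n = ((2 ^ n : ℝ) : ℂ) * (Complex.I * (1 + η)) := by
    have : (1 + δ) ^ n = 1 + η := by rw [hηdef]; ring
    rw [hzδ, mul_pow, this, ← neg_mul, neg_zstar_pow hn]
    push_cast
    ring
  have hre : |η.re| ≤ 1 / 7 := (Complex.abs_re_le_norm η).trans hη
  have him : (-z ^ n).im = 2 ^ n * (1 + η.re) := by
    rw [hpow, Complex.im_ofReal_mul]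
    simp
  have hnorm : ‖z‖ ^ n ≤ 2 ^ n * (8 / 7) := by
    have : ‖z‖ ^ n = ‖-z ^ n‖ := by rw [norm_neg, norm_pow]
    rw [this, hpow, norm_mul, norm_mul, Complex.norm_I, one_mul, Complex.norm_real,
      Real.norm_of_nonneg (by positivity)]
    gcongr
    calc ‖1 + η‖ ≤ ‖(1:ℂ)‖ + ‖η‖ := norm_add_le _ _
      _ ≤ 1 + 1 / 7 := by simpa using hη
      _ = 8 / 7 := by norm_num
  rw [him]
  have hpos : (0 : ℝ) < 2 ^ n := by positivity
  have : -(1 / 7) ≤ η.re := (abs_le.1 hre).1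
  nlinarith

lemma zstar_mem {n : ℕ} (hn : 4 ≤ n) : zstar n ∈ sec n :=
  P_mem hn (by norm_num) ⟨by positivity, by linarith [Real.pi_pos]⟩

lemma ball_zstar_subset {n : ℕ} (hn : 4 ≤ n) : ball (zstar n) (1 / (4 * n)) ⊆ sec n := by
  have hn0 : (0 : ℝ) < n := by positivity
  apply subset_of_frontier_disjoint (convex_ball _ _).isPreconnected (isOpen_sec hn)
  · exact ⟨zstar n, mem_ball_self (by positivity), zstar_mem hn⟩
  · intro z hz hf
    have h1 := im_pow_frontier hn hf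
    have h2 := near_zstar hn hz
    have h3 : 0 < ‖z‖ ^ n := by
      have : 0 < ‖z‖ := by linarith [h2.2.1]
      positivity
    have h4 : (-z ^ n).im = 0 := by simp [h1]
    linarith [h2.2.2]

lemma dist_zstar_two {n : ℕ} (hn : 16 ≤ n) : dist (zstar n) 2 ≤ 3 / 5 := by
  have hn' : (16 : ℝ) ≤ n := by exact_mod_cast hn
  have hn0 : (0 : ℝ) < n := by linarith
  unfold zstar P
  rw [dist_eq_norm]
  set φ : ℝ := (Real.pi + Real.pi / 2) / n with hφ
  have h1 : ((2 : ℝ) : ℂ) * Complex.exp ((φ : ℂ) * Complex.I) - 2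
      = 2 * (Complex.exp (Complex.I * φ) - 1) := by
    push_cast
    rw [mul_comm Complex.I]
    ring
  rw [h1, norm_mul]
  have h2 := Real.norm_exp_I_mul_ofReal_sub_one_le (x := φ)
  have h3 : φ ≤ 3 / 10 := by
    rw [hφ, div_le_iff₀ hn0]
    nlinarith [Real.pi_lt_d2]
  have h4 : 0 ≤ φ := by positivity
  rw [Real.norm_of_nonneg h4] at h2
  have h5 : ‖(2 : ℂ)‖ = 2 := by simp
  rw [h5]
  linarith

end Pool.Agent.Lib.MP_1ca924_an
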