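import Mathlib
import Pool.Agent.Lib.MP_1ca924_an.Defs

section

/-! # Elementary properties of hyperharmonic functions -/

set_option autoImplicit false
set_option linter.unusedSectionVars false

open MeasureTheory Metric Set Filter Topology

namespace Pool.Agent.Lib.MP_1ca924_an

variable {E : Type*} [NormedAddCommGroup E] [InnerProductSpace ℝ E] [FiniteDimensional ℝ E]
  [MeasurableSpace E] [BorelSpace E]

/-- `(a - c).toENNReal` for different constants. -/
lemma toENNReal_sub_shift {a : EReal} {c c' : ℝ} (hcc : c ≤ c') (h : (c' : EReal) ≤ a) :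
    (a - c).toENNReal = (a - c').toENNReal + ENNReal.ofReal (c' - c) := by
  induction a with
  | bot => simp at h
  | top => simp
  | coe a =>
    have h' : c' ≤ a := by exact_mod_cast h
    rw [← EReal.coe_sub, ← EReal.coe_sub, EReal.real_coe_toENNReal, EReal.real_coe_toENNReal,
      ← ENNReal.ofReal_add (by linarith) (by linarith)]
    congr 1; ring

lemma toENNReal_add_sub {a b : EReal} {c d : ℝ} (h : (c : EReal) ≤ a) (h' : (d : EReal) ≤ b) :
    (a + b - (c + d : ℝ)).toENNReal = (a - c).toENNReal + (b - d).toENNReal := by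
  induction a with
  | bot => simp at h
  | top =>
    induction b with
    | bot => simp at h'
    | top => rw [EReal.top_add_top, EReal.top_sub_coe]; simp
    | coe b => rw [EReal.top_add_coe, EReal.top_sub_coe]; simp
  | coe a =>
    induction b with
    | bot => simp at h'
    | top => rw [EReal.coe_add_top, EReal.top_sub_coe]; simp
    | coe b =>
      have h1 : c ≤ a := by exact_mod_cast h
      have h2 : d ≤ b := by exact_mod_cast h'
      rw [← EReal.coe_add, ← EReal.coe_sub, ← EReal.coe_sub, ← EReal.coe_sub,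
        EReal.real_coe_toENNReal, EReal.real_coe_toENNReal, EReal.real_coe_toENNReal,
        ← ENNReal.ofReal_add (by linarith) (by linarith)]
      congr 1; ring

lemma exists_lower_bound {Ω K : Set E} {u : E → EReal} (hu : LowerSemicontinuousOn u Ω)
    (hbot : ∀ x ∈ Ω, ⊥ < u x) (hK : IsCompact K) (hKΩ : K ⊆ Ω) :
    ∃ c : ℝ, ∀ z ∈ K, (c : EReal) ≤ u z := by
  rcases K.eq_empty_or_nonempty with rfl | hne
  · exact ⟨0, by simp⟩
  · obtain ⟨z₀, hz₀, hmin⟩ := LowerSemicontinuousOn.exists_isMinOn hne hK (hu.mono hKΩ)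
    obtain ⟨c, -, hc⟩ := EReal.lt_iff_exists_real_btwn.1 (hbot z₀ (hKΩ hz₀))
    exact ⟨c, fun z hz => hc.le.trans (hmin hz)⟩

/-- The mean inequality for one lower bound gives it for all. -/
lemma mean_of_one {u : E → EReal} {x : E} {r : ℝ} {c₀ : ℝ}
    (hr : 0 ≤ r)
    (hc₀ : ∀ z ∈ closedBall x r, (c₀ : EReal) ≤ u z)
    (h : ∫⁻ z in closedBall x r, (u z - c₀).toENNReal
          ≤ (u x - c₀).toENNReal * volume (closedBall x r)) :
    ∀ c : ℝ, (∀ z ∈ closedBall x r, (c : EReal) ≤ u z) →
        ∫⁻ z in closedBall x r, (u z - c).toENNReal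
          ≤ (u x - c).toENNReal * volume (closedBall x r) := by
  intro c hc
  have hxr : x ∈ closedBall x r := mem_closedBall_self hr
  have hV : volume (closedBall x r) ≠ ⊤ := measure_closedBall_lt_top.ne
  rcases le_total c c₀ with hcc | hcc
  · have e1 : ∫⁻ z in closedBall x r, (u z - c).toENNReal
        = ∫⁻ z in closedBall x r, ((u z - c₀).toENNReal + ENNReal.ofReal (c₀ - c)) := by
      apply setLIntegral_congr_fun isClosed_closedBall.measurableSet
      intro z hz
      exact toENNReal_sub_shift hcc (hc₀ z hz)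
    rw [e1, lintegral_add_right _ measurable_const, toENNReal_sub_shift hcc (hc₀ x hxr), add_mul,
      setLIntegral_const]
    gcongr
  · have e1 : ∫⁻ z in closedBall x r, (u z - c₀).toENNReal
        = ∫⁻ z in closedBall x r, ((u z - c).toENNReal + ENNReal.ofReal (c - c₀)) := by
      apply setLIntegral_congr_fun isClosed_closedBall.measurableSet
      intro z hz
      exact toENNReal_sub_shift hcc (hc z hz)
    rw [e1, lintegral_add_right _ measurable_const, toENNReal_sub_shift hcc (hc x hxr), add_mul,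
      setLIntegral_const] at h
    exact (ENNReal.add_le_add_iff_right (ENNReal.mul_ne_top ENNReal.ofReal_ne_top hV)).1 h

lemma Hyperharmonic.mono {Ω Ω' : Set E} {u : E → EReal} (hu : Hyperharmonic Ω u) (h : Ω' ⊆ Ω) :
    Hyperharmonic Ω' u :=
  ⟨hu.1.mono h, fun x hx => hu.2.1 x (h hx), fun x r hr hb => hu.2.2 x r hr (hb.trans h)⟩

lemma Hyperharmonic.congr {Ω : Set E} {u u' : E → EReal} (hu : Hyperharmonic Ω u)
    (h : ∀ x ∈ Ω, u x = u' x) : Hyperharmonic Ω u' := by
  refine ⟨?_, fun x hx => (h x hx) ▸ hu.2.1 x hx, fun x r hr hb c hc => ?_⟩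
  · intro x hx y hy
    rw [← h x hx] at hy
    filter_upwards [hu.1 x hx y hy, self_mem_nhdsWithin] with z hz hzΩ
    rwa [← h z hzΩ]
  · have := hu.2.2 x r hr hb c (fun z hz => by rw [h z (hb hz)]; exact hc z hz)
    rw [← h x (hb (mem_closedBall_self hr.le))]
    refine le_trans (le_of_eq ?_) this
    apply setLIntegral_congr_fun isClosed_closedBall.measurableSet
    intro z hz
    simp only [h z (hb hz)]

lemma Hyperharmonic.exists_lb {Ω : Set E} {u : E → EReal} (hu : Hyperharmonic Ω u) {x : E} {r : ℝ}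
    (hb : closedBall x r ⊆ Ω) : ∃ c : ℝ, ∀ z ∈ closedBall x r, (c : EReal) ≤ u z :=
  exists_lower_bound hu.1 hu.2.1 (isCompact_closedBall x r) hb

lemma aemeasurable_of_lsc {Ω K : Set E} {u : E → EReal} (hΩ : IsOpen Ω)
    (hu : LowerSemicontinuousOn u Ω) (hK : MeasurableSet K) (hKΩ : K ⊆ Ω) (c : ℝ) :
    AEMeasurable (fun z => (u z - c).toENNReal) (volume.restrict K) := by
  classical
  let g : E → EReal := fun z => if z ∈ Ω then u z else ⊥
  have hg : LowerSemicontinuous g := by
    intro x y hy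
    by_cases hx : x ∈ Ω
    · have hy' : y < u x := by simpa [g, hx] using hy
      have := hu x hx y hy'
      rw [hΩ.nhdsWithin_eq hx] at this
      filter_upwards [this, hΩ.mem_nhds hx] with z hz hzΩ
      simpa [g, hzΩ] using hz
    · simp [g, hx] at hy
  have hgm : Measurable g := hg.measurable
  have h2 : Measurable (fun z => (g z - c).toENNReal) := by
    have : Measurable (fun z => g z - c) := by
      exact hgm.sub measurable_const
    exact measurable_ereal_toENNReal.comp this
  refine ⟨_, h2, ?_⟩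
  filter_upwards [ae_restrict_mem hK] with z hz
  simp [g, hKΩ hz]

lemma Hyperharmonic.add {Ω : Set E} (hΩ : IsOpen Ω) {u v : E → EReal}
    (hu : Hyperharmonic Ω u) (hv : Hyperharmonic Ω v) : Hyperharmonic Ω (fun x => u x + v x) := by
  refine ⟨?_, fun x hx => ?_, fun x r hr hb => ?_⟩
  · apply LowerSemicontinuousOn.add' hu.1 hv.1
    intro x hx
    exact EReal.continuousAt_add (Or.inr (hv.2.1 x hx).ne') (Or.inl (hu.2.1 x hx).ne')
  · have h1 := hu.2.1 x hx
    have h2 := hv.2.1 x hx
    rw [bot_lt_iff_ne_bot] at *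
    simp [EReal.add_eq_bot_iff, h1, h2]
  · obtain ⟨c, hc⟩ := hu.exists_lb hb
    obtain ⟨d, hd⟩ := hv.exists_lb hb
    have hxr : x ∈ closedBall x r := mem_closedBall_self hr.le
    refine mean_of_one hr.le (c₀ := c + d) (fun z hz => ?_) ?_
    · rw [EReal.coe_add]
      exact add_le_add (hc z hz) (hd z hz)
    · have e1 : ∫⁻ z in closedBall x r, (u z + v z - (c + d : ℝ)).toENNReal
          = ∫⁻ z in closedBall x r, ((u z - c).toENNReal + (v z - d).toENNReal) := by
        apply setLIntegral_congr_fun isClosed_closedBall.measurableSet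
        intro z hz
        exact toENNReal_add_sub (hc z hz) (hd z hz)
      rw [e1, lintegral_add_left' (aemeasurable_of_lsc hΩ hu.1 isClosed_closedBall.measurableSet hb c),
        toENNReal_add_sub (hc x hxr) (hd x hxr), add_mul]
      exact add_le_add (hu.2.2 x r hr hb c hc) (hv.2.2 x r hr hb d hd)

lemma hyperharmonic_const (Ω : Set E) (a : ℝ) : Hyperharmonic Ω (fun _ => (a : EReal)) := by
  refine ⟨continuousOn_const.lowerSemicontinuousOn, fun x hx => EReal.bot_lt_coe a,
    fun x r hr hb c hc => ?_⟩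
  rw [setLIntegral_const]

lemma Hyperharmonic.add_const {Ω : Set E} (hΩ : IsOpen Ω) {u : E → EReal}
    (hu : Hyperharmonic Ω u) (a : ℝ) : Hyperharmonic Ω (fun x => u x + (a : EReal)) :=
  hu.add hΩ (hyperharmonic_const Ω a)

end Pool.Agent.Lib.MP_1ca924_an
end

section

/-! # The minimum principle and the comparison principle -/

set_option autoImplicit false
set_option linter.unusedSectionVars false

open MeasureTheory Metric Set Filter Topology

namespace Pool.Agent.Lib.MP_1ca924_an

variable {E : Type*} [NormedAddCommGroup E] [InnerProductSpace ℝ E] [FiniteDimensional ℝ E]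
  [MeasurableSpace E] [BorelSpace E]

/-- sublevel sets at negative levels are compact -/
lemma isCompact_sublevel {U : Set E} (hb : Bornology.IsBounded U)
    {s : E → EReal} (hs : LowerSemicontinuousOn s U)
    (hbd : ∀ ζ ∈ frontier U, ∀ ε : ℝ, 0 < ε → ∀ᶠ z in 𝓝[U] ζ, ((-ε : ℝ) : EReal) ≤ s z)
    {t : ℝ} (ht : t < 0) : IsCompact {z | z ∈ U ∧ s z ≤ (t : EReal)} := by
  apply Metric.isCompact_of_isClosed_isBounded _ (hb.subset (fun z hz => hz.1))
  rw [← closure_subset_iff_isClosed]
  intro ζ hζ
  have hζU : ζ ∈ closure U := closure_mono (fun z hz => hz.1) hζ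
  by_cases hζ' : ζ ∈ U
  · refine ⟨hζ', ?_⟩
    by_contra hcon
    push Not at hcon
    have h1 := hs ζ hζ' _ hcon
    rw [mem_closure_iff_frequently] at hζ
    obtain ⟨z, hz1, hz2⟩ := ((hζ.and_eventually (eventually_nhdsWithin_iff.1 h1))).exists
    exact absurd (hz2 hz1.1) (not_lt.2 hz1.2)
  · have hf : ζ ∈ frontier U := ⟨hζU, fun h => hζ' (interior_subset h)⟩
    have h1 := hbd ζ hf (-t / 2) (by linarith)
    rw [mem_closure_iff_frequently] at hζ
    obtain ⟨z, hz1, hz2⟩ := ((hζ.and_eventually (eventually_nhdsWithin_iff.1 h1))).exists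
    have h3 := (hz2 hz1.1).trans hz1.2
    have h4 : -(-t / 2) ≤ t := by exact_mod_cast h3
    linarith

/-- **Minimum principle.** -/
theorem min_principle [Nontrivial E] {U : Set E} (hU : IsOpen U) (hb : Bornology.IsBounded U)
    {s : E → EReal} (hs : Hyperharmonic U s)
    (hbd : ∀ ζ ∈ frontier U, ∀ ε : ℝ, 0 < ε → ∀ᶠ z in 𝓝[U] ζ, ((-ε : ℝ) : EReal) ≤ s z) :
    ∀ x ∈ U, 0 ≤ s x := by
  intro x₀ hx₀
  by_contra hneg
  push Not at hneg
  obtain ⟨t, ht1, ht2⟩ := EReal.lt_iff_exists_real_btwn.1 hneg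
  have ht : t < 0 := by exact_mod_cast ht2
  have hK := isCompact_sublevel hb hs.1 hbd ht
  have hKne : ({z | z ∈ U ∧ s z ≤ (t : EReal)} : Set E).Nonempty := ⟨x₀, hx₀, ht1.le⟩
  obtain ⟨x₁, hx₁, hmin⟩ := LowerSemicontinuousOn.exists_isMinOn hKne hK
    (hs.1.mono (fun z hz => hz.1))
  have hx₁t : s x₁ ≤ (t : EReal) := hx₁.2
  have hx₁bot : ⊥ < s x₁ := hs.2.1 x₁ hx₁.1
  obtain ⟨m, hm⟩ : ∃ m : ℝ, s x₁ = (m : EReal) := by
    have h1 : s x₁ ≠ ⊤ := ne_top_of_le_ne_top (EReal.coe_ne_top t) hx₁t
    exact ⟨(s x₁).toReal, (EReal.coe_toReal h1 hx₁bot.ne').symm⟩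
  have hmt : m ≤ t := by rw [hm] at hx₁t; exact_mod_cast hx₁t
  have hglob : ∀ z ∈ U, (m : EReal) ≤ s z := by
    intro z hz
    by_cases h : s z ≤ (t : EReal)
    · rw [← hm]; exact hmin ⟨hz, h⟩
    · push Not at h
      exact le_trans (by exact_mod_cast hmt) h.le
  have hK' := isCompact_sublevel hb hs.1 hbd (lt_of_le_of_lt hmt ht)
  have hK'ne : ({z | z ∈ U ∧ s z ≤ (m : EReal)} : Set E).Nonempty := ⟨x₁, hx₁.1, hm.le⟩
  obtain ⟨x₂, hx₂, hmax⟩ := hK'.exists_isMaxOn hK'ne (continuous_norm.continuousOn)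
  obtain ⟨ρ, hρ, hball⟩ := Metric.isOpen_iff.1 hU x₂ hx₂.1
  have hcb : closedBall x₂ (ρ / 2) ⊆ U :=
    (closedBall_subset_ball (by linarith)).trans hball
  have hmean := hs.2.2 x₂ (ρ / 2) (by linarith) hcb m (fun z hz => hglob z (hcb hz))
  have hx₂m : s x₂ = (m : EReal) := le_antisymm hx₂.2 (hglob x₂ hx₂.1)
  have hzero : (s x₂ - (m : EReal)).toENNReal = 0 := by
    rw [hx₂m, ← EReal.coe_sub]; simp
  rw [hzero, zero_mul, nonpos_iff_eq_zero,
    lintegral_eq_zero_iff' (aemeasurable_of_lsc hU hs.1 isClosed_closedBall.measurableSet hcb m)]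
    at hmean
  -- hence `s ≤ m` on the ball
  have hle : ∀ z ∈ ball x₂ (ρ / 2), s z ≤ (m : EReal) := by
    intro z hz
    by_contra hcon
    push Not at hcon
    have hzU : z ∈ U := hcb (ball_subset_closedBall hz)
    have h1 := hs.1 z hzU _ hcon
    rw [hU.nhdsWithin_eq hzU] at h1
    obtain ⟨W, hW, hWo, hzW⟩ := _root_.eventually_nhds_iff.1 h1
    have hopen : IsOpen (W ∩ ball x₂ (ρ / 2)) := hWo.inter isOpen_ball
    have hpos : 0 < volume (W ∩ ball x₂ (ρ / 2)) := hopen.measure_pos volume ⟨z, hzW, hz⟩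
    have hae : ∀ᵐ y ∂volume, y ∈ closedBall x₂ (ρ / 2) → (s y - (m : EReal)).toENNReal = 0 := by
      have := (ae_restrict_iff' (isClosed_closedBall.measurableSet)).1 hmean
      filter_upwards [this] with y hy hyb
      simpa using hy hyb
    have hsub : W ∩ ball x₂ (ρ / 2) ⊆
        {y | ¬ (y ∈ closedBall x₂ (ρ / 2) → (s y - (m : EReal)).toENNReal = 0)} := by
      intro y hy hcontra
      have h2 := hcontra (ball_subset_closedBall hy.2)
      rw [EReal.toENNReal_eq_zero_iff] at h2
      have h3 : (m : EReal) < s y := hW y hy.1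
      have h4 : s y ≤ (m : EReal) := by
        rw [EReal.sub_nonpos] at h2
        exact h2
      exact absurd h3 (not_lt.2 h4)
    have := measure_mono_null hsub hae
    exact absurd this hpos.ne'
  -- a point of the ball of larger norm
  obtain ⟨v, hv⟩ : ∃ v : E, v ≠ 0 := exists_ne 0
  obtain ⟨w, hw1, hw2⟩ : ∃ w : E, ‖w‖ = 1 ∧ ‖x₂ + (ρ / 4) • w‖ = ‖x₂‖ + ρ / 4 := by
    by_cases hx : x₂ = 0
    · refine ⟨(‖v‖⁻¹) • v, ?_, ?_⟩
      · rw [norm_smul, norm_inv, norm_norm, inv_mul_cancel₀ (norm_ne_zero_iff.2 hv)]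
      · rw [hx, zero_add, norm_smul, norm_smul, norm_inv, norm_norm,
          inv_mul_cancel₀ (norm_ne_zero_iff.2 hv), Real.norm_of_nonneg (by linarith)]
        simp
    · have hx' : ‖x₂‖ ≠ 0 := norm_ne_zero_iff.2 hx
      refine ⟨(‖x₂‖⁻¹) • x₂, ?_, ?_⟩
      · rw [norm_smul, norm_inv, norm_norm, inv_mul_cancel₀ hx']
      · have : x₂ + (ρ / 4) • (‖x₂‖⁻¹) • x₂ = (1 + (ρ / 4) * ‖x₂‖⁻¹) • x₂ := by
          rw [add_smul, one_smul, smul_smul]
        rw [this, norm_smul, Real.norm_of_nonneg (by positivity)]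
        field_simp
  have hmem : x₂ + (ρ / 4) • w ∈ ball x₂ (ρ / 2) := by
    rw [mem_ball, dist_eq_norm, add_sub_cancel_left, norm_smul, hw1,
      Real.norm_of_nonneg (by linarith)]
    linarith
  have h5 : x₂ + (ρ / 4) • w ∈ {z | z ∈ U ∧ s z ≤ (m : EReal)} :=
    ⟨hcb (ball_subset_closedBall hmem), hle _ hmem⟩
  have h6 : ‖x₂ + (ρ / 4) • w‖ ≤ ‖x₂‖ := hmax h5
  rw [hw2] at h6
  linarith

/-- Comparison principle: if `u` and `-v` are hyperharmonic (here `v' = -v`). -/
theorem comparison [Nontrivial E] {U : Set E} (hU : IsOpen U) (hb : Bornology.IsBounded U)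
    {u v' : E → EReal} (hu : Hyperharmonic U u) (hv : Hyperharmonic U v')
    (hbd : ∀ ζ ∈ frontier U, ∀ ε : ℝ, 0 < ε → ∀ᶠ z in 𝓝[U] ζ, ((-ε : ℝ) : EReal) ≤ u z + v' z) :
    ∀ x ∈ U, 0 ≤ u x + v' x :=
  min_principle hU hb (hu.add hU hv) hbd

lemma upper_add_upper_nonneg [Nontrivial E] {Ω : Set E} (hΩ : IsOpen Ω)
    (hb : Bornology.IsBounded Ω) {f : E → EReal} {u v' : E → EReal}
    (hu : u ∈ UpperClass Ω f) (hv : v' ∈ UpperClass Ω (fun ζ => - f ζ)) :
    ∀ x ∈ Ω, 0 ≤ u x + v' x := by
  obtain ⟨hu1, ⟨c, hc⟩, hu3⟩ := hu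
  obtain ⟨hv1, ⟨d, hd⟩, hv3⟩ := hv
  apply comparison hΩ hb hu1 hv1
  intro ζ hζ ε hε
  have h1 := hu3 ζ hζ
  have h2 : - f ζ ≤ liminf v' (𝓝[Ω] ζ) := hv3 ζ hζ
  have key : ∀ a b : ℝ, -ε ≤ a + b → (∀ᶠ z in 𝓝[Ω] ζ, (a : EReal) ≤ u z) →
      (∀ᶠ z in 𝓝[Ω] ζ, (b : EReal) ≤ v' z) →
      ∀ᶠ z in 𝓝[Ω] ζ, ((-ε : ℝ) : EReal) ≤ u z + v' z := by
    intro a b hab ha hb
    filter_upwards [ha, hb] with z hz1 hz2
    calc ((-ε : ℝ) : EReal) ≤ ((a + b : ℝ) : EReal) := by exact_mod_cast hab
      _ = (a : EReal) + (b : EReal) := by rw [EReal.coe_add]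
      _ ≤ u z + v' z := add_le_add hz1 hz2
  have hself : ∀ᶠ z in 𝓝[Ω] ζ, z ∈ Ω := self_mem_nhdsWithin
  generalize f ζ = F at h1 h2
  induction F with
  | top =>
    refine key (-d) d (by linarith) ?_ (hself.mono fun z hz => hd z hz)
    have : ((-d : ℝ) : EReal) < liminf u (𝓝[Ω] ζ) := lt_of_lt_of_le (EReal.coe_lt_top _) h1
    exact (eventually_lt_of_lt_liminf this).mono fun z hz => hz.le
  | bot =>
    refine key c (-c) (by linarith) (hself.mono fun z hz => hc z hz) ?_
    have : ((-c : ℝ) : EReal) < liminf v' (𝓝[Ω] ζ) := by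
      refine lt_of_lt_of_le ?_ h2
      rw [EReal.neg_bot]
      exact EReal.coe_lt_top _
    exact (eventually_lt_of_lt_liminf this).mono fun z hz => hz.le
  | coe a =>
    refine key (a - ε / 2) (-a - ε / 2) (by linarith) ?_ ?_
    · have : ((a - ε / 2 : ℝ) : EReal) < liminf u (𝓝[Ω] ζ) := by
        refine lt_of_lt_of_le ?_ h1
        exact_mod_cast (by linarith)
      exact (eventually_lt_of_lt_liminf this).mono fun z hz => hz.le
    · have : ((-a - ε / 2 : ℝ) : EReal) < liminf v' (𝓝[Ω] ζ) := by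
        refine lt_of_lt_of_le ?_ h2
        rw [← EReal.coe_neg]
        exact_mod_cast (by linarith)
      exact (eventually_lt_of_lt_liminf this).mono fun z hz => hz.le

lemma neg_le_of_add_nonneg {a b : EReal} (h : 0 ≤ a + b) : -a ≤ b := by
  induction a with
  | top => simp
  | bot => simp at h
  | coe a =>
    induction b with
    | top => simp
    | bot => simp at h
    | coe b =>
      rw [← EReal.coe_neg]
      have h' : 0 ≤ a + b := by exact_mod_cast h
      have : -a ≤ b := by linarith
      exact_mod_cast this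

lemma lowerSol_le_upperSol [Nontrivial E] {Ω : Set E} (hΩ : IsOpen Ω)
    (hb : Bornology.IsBounded Ω) (f : E → EReal) {x : E} (hx : x ∈ Ω) :
    lowerSol Ω f x ≤ upperSol Ω f x := by
  unfold lowerSol upperSol
  refine le_iInf₂ fun u hu => ?_
  rw [EReal.neg_le]
  refine le_iInf₂ fun v hv => ?_
  exact neg_le_of_add_nonneg (upper_add_upper_nonneg hΩ hb hu hv x hx)

end Pool.Agent.Lib.MP_1ca924_an
end

section

/-! # Imaginary parts of holomorphic functions are hyperharmonic -/

set_option autoImplicit false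
set_option linter.unusedSectionVars false

open MeasureTheory Metric Set Filter Topology

namespace Pool.Agent.Lib.MP_1ca924_an

/-- Area mean value property of holomorphic functions. -/
lemma area_mean {F : ℂ → ℂ} {x : ℂ} {r : ℝ} (hr : 0 < r)
    (hF : DiffContOnCl ℂ F (ball x r)) :
    ∫ z in closedBall x r, F z = (volume.real (closedBall x r) : ℂ) * F x := by
  set f : ℂ → ℂ := fun p => F (x + p) with hf
  have hfd : DiffContOnCl ℂ f (ball 0 r) := by
    have hg : DiffContOnCl ℂ (fun p : ℂ => x + p) (ball (0:ℂ) r) :=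
      DifferentiableOn.diffContOnCl (by fun_prop)
    have hm : MapsTo (fun p : ℂ => x + p) (ball (0:ℂ) r) (ball x r) := by
      intro p hp
      simpa [mem_ball, dist_eq_norm] using hp
    exact hF.comp hg hm
  have hfc : ContinuousOn f (closedBall 0 r) := by
    have := hfd.continuousOn
    rwa [closure_ball _ hr.ne'] at this
  have e0 : ∫ z in closedBall x r, F z = ∫ p in closedBall (0:ℂ) r, f p := by
    have hmp : MeasurePreserving (fun p : ℂ => x + p) volume volume :=
      measurePreserving_add_left volume x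
    have hemb : MeasurableEmbedding (fun p : ℂ => x + p) :=
      (Homeomorph.addLeft x).measurableEmbedding
    rw [← hmp.setIntegral_preimage_emb hemb F (closedBall x r)]
    congr 2
    ext p
    simp [dist_eq_norm]
  -- rotation invariance
  have erot : ∀ θ : ℝ, ∫ p in closedBall (0:ℂ) r, f (Complex.exp (θ * Complex.I) * p)
      = ∫ p in closedBall (0:ℂ) r, f p := by
    intro θ
    let c : Circle := Circle.exp θ
    have hc : (c : ℂ) = Complex.exp (θ * Complex.I) := by simp [c, Circle.coe_exp]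
    have hmp : MeasurePreserving (rotation c) volume volume := (rotation c).measurePreserving
    have hemb : MeasurableEmbedding (rotation c) :=
      (rotation c).toHomeomorph.measurableEmbedding
    rw [← hmp.setIntegral_preimage_emb hemb f (closedBall 0 r)]
    have hpre : (rotation c) ⁻¹' closedBall (0:ℂ) r = closedBall 0 r := by
      ext p
      simp only [mem_preimage, mem_closedBall, dist_zero_right, LinearIsometryEquiv.norm_map]
    rw [hpre]
    apply setIntegral_congr_fun isClosed_closedBall.measurableSet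
    intro p hp
    simp [rotation_apply, hc]
  -- circle averages
  have ecirc : ∀ p ∈ closedBall (0:ℂ) r,
      ∫ θ in (0:ℝ)..(2 * Real.pi), f (Complex.exp (θ * Complex.I) * p)
        = (2 * Real.pi : ℝ) • f 0 := by
    intro p hp
    have hk : DiffContOnCl ℂ (fun w => f (w * p)) (ball (0:ℂ) |1|) := by
      by_cases hp0 : p = 0
      · subst hp0
        simp only [mul_zero]
        exact diffContOnCl_const
      · apply hfd.comp (g := fun w : ℂ => w * p) (DifferentiableOn.diffContOnCl (by fun_prop))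
        intro w hw
        have h1 : ‖w‖ < 1 := by simpa using hw
        have h2 : ‖p‖ ≤ r := by simpa using hp
        have h3 : 0 < ‖p‖ := norm_pos_iff.2 hp0
        simp only [mem_ball, dist_zero_right, norm_mul]
        nlinarith
    have h1 := hk.circleAverage
    rw [Real.circleAverage_def] at h1
    simp only [circleMap_zero, Complex.ofReal_one, one_mul, zero_mul] at h1
    rw [← h1, smul_smul, mul_inv_cancel₀ (by positivity), one_smul]
  have hswap : ∫ θ in (0:ℝ)..(2 * Real.pi), ∫ p in closedBall (0:ℂ) r,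
        f (Complex.exp (θ * Complex.I) * p)
      = ∫ p in closedBall (0:ℂ) r, ∫ θ in (0:ℝ)..(2 * Real.pi),
        f (Complex.exp (θ * Complex.I) * p) := by
    rw [intervalIntegral.integral_of_le (by positivity)]
    rw [integral_integral_swap]
    · apply integral_congr_ae
      filter_upwards with p
      rw [intervalIntegral.integral_of_le (by positivity)]
    · rw [Measure.prod_restrict]
      have hcont : ContinuousOn (fun q : ℝ × ℂ => f (Complex.exp (q.1 * Complex.I) * q.2))
          (Icc 0 (2 * Real.pi) ×ˢ closedBall (0:ℂ) r) := by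
        apply hfc.comp (by fun_prop)
        rintro ⟨θ, p⟩ ⟨-, hp⟩
        simp only [mem_closedBall, dist_zero_right] at hp ⊢
        rw [norm_mul, Complex.norm_exp_ofReal_mul_I, one_mul]
        exact hp
      have hi := hcont.integrableOn_compact (μ := (volume : Measure ℝ).prod volume)
        (isCompact_Icc.prod (isCompact_closedBall _ _))
      exact hi.mono_set (prod_mono Ioc_subset_Icc_self le_rfl)
  have hL : ∫ θ in (0:ℝ)..(2 * Real.pi), ∫ p in closedBall (0:ℂ) r,
        f (Complex.exp (θ * Complex.I) * p)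
      = (2 * Real.pi : ℝ) • ∫ p in closedBall (0:ℂ) r, f p := by
    simp_rw [erot]
    simp
  have hR : ∫ p in closedBall (0:ℂ) r, ∫ θ in (0:ℝ)..(2 * Real.pi),
        f (Complex.exp (θ * Complex.I) * p)
      = (2 * Real.pi : ℝ) • ((volume.real (closedBall (0:ℂ) r) : ℂ) * f 0) := by
    rw [setIntegral_congr_fun isClosed_closedBall.measurableSet ecirc, setIntegral_const]
    simp only [Complex.real_smul]
    ring
  have h2 : (2 * Real.pi : ℝ) • ∫ p in closedBall (0:ℂ) r, f p
      = (2 * Real.pi : ℝ) • ((volume.real (closedBall (0:ℂ) r) : ℂ) * f 0) := by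
    rw [← hL, hswap, hR]
  have h3 := smul_right_injective ℂ (r := (2 * Real.pi : ℝ)) (by positivity) h2
  rw [e0, h3]
  have hvol : volume.real (closedBall (0:ℂ) r) = volume.real (closedBall x r) := by
    simp [Measure.real, Complex.volume_closedBall]
  simp [hf, hvol]

/-- The imaginary part of a holomorphic function is hyperharmonic. -/
theorem hyperharmonic_im {Ω : Set ℂ} {F : ℂ → ℂ} (hF : DifferentiableOn ℂ F Ω) :
    Hyperharmonic Ω (fun z => (((F z).im : ℝ) : EReal)) := by
  have hcont : ContinuousOn (fun z => (F z).im) Ω := Complex.continuous_im.comp_continuousOn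
    hF.continuousOn
  refine ⟨?_, fun x hx => EReal.bot_lt_coe _, fun x r hr hb c hc => ?_⟩
  · exact (continuous_coe_real_ereal.comp_continuousOn hcont).lowerSemicontinuousOn
  · have hd : DiffContOnCl ℂ F (ball x r) := by
      apply DifferentiableOn.diffContOnCl
      rw [closure_ball _ hr.ne']
      exact hF.mono hb
    have hFi : IntegrableOn F (closedBall x r) :=
      (hF.continuousOn.mono hb).integrableOn_compact (isCompact_closedBall x r)
    have hm := area_mean hr hd
    have hm' : ∫ z in closedBall x r, (F z).im = volume.real (closedBall x r) * (F x).im := by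
      have h1 : ∫ z in closedBall x r, (F z).im = (∫ z in closedBall x r, F z).im := by
        have := Complex.imCLM.integral_comp_comm hFi
        simpa using this
      rw [h1, hm]
      simp
    have : IsFiniteMeasure (volume.restrict (closedBall x r)) :=
      isFiniteMeasure_restrict.2 measure_closedBall_lt_top.ne
    have hint : Integrable (fun z => (F z).im - c) (volume.restrict (closedBall x r)) :=
      Integrable.sub (Complex.imCLM.integrable_comp hFi) (integrable_const c)
    have hnn : 0 ≤ᵐ[volume.restrict (closedBall x r)] (fun z => (F z).im - c) := by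
      filter_upwards [ae_restrict_mem isClosed_closedBall.measurableSet] with z hz
      have : c ≤ (F z).im := EReal.coe_le_coe_iff.1 (hc z hz)
      simpa using this
    have e1 : ∫⁻ z in closedBall x r, ((((F z).im : ℝ) : EReal) - c).toENNReal
        = ENNReal.ofReal (∫ z in closedBall x r, ((F z).im - c)) := by
      rw [ofReal_integral_eq_lintegral_ofReal hint hnn]
      apply lintegral_congr
      intro z
      rw [← EReal.coe_sub, EReal.real_coe_toENNReal]
    have hxc : c ≤ (F x).im := EReal.coe_le_coe_iff.1 (hc x (mem_closedBall_self hr.le))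
    have e2 : ∫ z in closedBall x r, ((F z).im - c)
        = volume.real (closedBall x r) * (F x).im - volume.real (closedBall x r) • c := by
      have hi : Integrable (fun z => (F z).im) (volume.restrict (closedBall x r)) :=
        Complex.imCLM.integrable_comp hFi
      rw [integral_sub hi (integrable_const c), hm', setIntegral_const]
    rw [e1, e2]
    show _ ≤ (((F x).im : EReal) - c).toENNReal * volume (closedBall x r)
    rw [← EReal.coe_sub, EReal.real_coe_toENNReal]
    have e3 : volume.real (closedBall x r) * (F x).im - volume.real (closedBall x r) • c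
        = ((F x).im - c) * volume.real (closedBall x r) := by
      simp only [smul_eq_mul]; ring
    rw [e3, ENNReal.ofReal_mul (by linarith), Measure.real, ENNReal.ofReal_toReal
      measure_closedBall_lt_top.ne]

end Pool.Agent.Lib.MP_1ca924_an
end

section

/-! # Sine polynomials on `[0, π]` -/

set_option autoImplicit false
set_option linter.unusedSectionVars false

open MeasureTheory Metric Set Filter Topology

namespace Pool.Agent.Lib.MP_1ca924_an

/-- sine polynomial with coefficients `c 0, ..., c K` -/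
noncomputable def sineP (c : ℕ → ℝ) (K : ℕ) (θ : ℝ) : ℝ :=
  ∑ k ∈ Finset.range (K + 1), c k * Real.sin ((k + 1 : ℝ) * θ)

lemma sineP_extend (c : ℕ → ℝ) (K L : ℕ) (h : K ≤ L) :
    ∃ c' : ℕ → ℝ, ∀ θ, sineP c' L θ = sineP c K θ := by
  refine ⟨fun k => if k ∈ Finset.range (K + 1) then c k else 0, fun θ => ?_⟩
  unfold sineP
  have hsub : Finset.range (K + 1) ⊆ Finset.range (L + 1) := by
    apply Finset.range_subset_range.2; omega
  rw [← Finset.sum_subset hsub]
  · apply Finset.sum_congr rfl
    intro k hk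
    simp only [hk, if_true]
  · intro k _ hk
    simp only [hk, if_false, zero_mul]

/-- being a sine polynomial -/
def IsSineP (p : ℝ → ℝ) : Prop := ∃ (c : ℕ → ℝ) (K : ℕ), ∀ θ, p θ = sineP c K θ

lemma IsSineP.add {p q : ℝ → ℝ} (hp : IsSineP p) (hq : IsSineP q) :
    IsSineP (fun θ => p θ + q θ) := by
  obtain ⟨c, K, h1⟩ := hp
  obtain ⟨d, L, h2⟩ := hq
  obtain ⟨c', h3⟩ := sineP_extend c K (max K L) (le_max_left _ _)
  obtain ⟨d', h4⟩ := sineP_extend d L (max K L) (le_max_right _ _)
  refine ⟨fun k => c' k + d' k, max K L, fun θ => ?_⟩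
  show p θ + q θ = _
  rw [h1, h2, ← h3, ← h4]
  unfold sineP
  rw [← Finset.sum_add_distrib]
  apply Finset.sum_congr rfl
  intro k _
  ring

lemma IsSineP.const_mul {p : ℝ → ℝ} (hp : IsSineP p) (a : ℝ) :
    IsSineP (fun θ => a * p θ) := by
  obtain ⟨c, K, h1⟩ := hp
  refine ⟨fun k => a * c k, K, fun θ => ?_⟩
  show a * p θ = _
  rw [h1]
  unfold sineP
  rw [Finset.mul_sum]
  apply Finset.sum_congr rfl
  intro k _
  ring

lemma isSineP_zero : IsSineP (fun _ => 0) :=
  ⟨fun _ => 0, 0, fun θ => by simp [sineP]⟩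

lemma isSineP_sin (k : ℕ) : IsSineP (fun θ => Real.sin ((k : ℝ) * θ)) := by
  cases k with
  | zero => simpa using isSineP_zero
  | succ k =>
    refine ⟨fun j => if j = k then 1 else 0, k, fun θ => ?_⟩
    unfold sineP
    rw [Finset.sum_eq_single k]
    · simp
    · intro j _ hj; simp [hj]
    · intro h; simp at h

lemma isSineP_sum {ι : Type*} (s : Finset ι) (f : ι → ℝ → ℝ) (h : ∀ i ∈ s, IsSineP (f i)) :
    IsSineP (fun θ => ∑ i ∈ s, f i θ) := by
  classical
  induction s using Finset.induction_on with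
  | empty => simpa using isSineP_zero
  | insert a s ha ih =>
    have h1 := (h a (Finset.mem_insert_self a s)).add
      (ih (fun i hi => h i (Finset.mem_insert_of_mem hi)))
    simpa [Finset.sum_insert ha] using h1

lemma IsSineP.mul_cos {p : ℝ → ℝ} (hp : IsSineP p) : IsSineP (fun θ => p θ * Real.cos θ) := by
  obtain ⟨c, K, h1⟩ := hp
  have : (fun θ => p θ * Real.cos θ) = fun θ => ∑ k ∈ Finset.range (K + 1),
      (c k / 2 * Real.sin (((k + 2 : ℕ) : ℝ) * θ) + c k / 2 * Real.sin ((k : ℝ) * θ)) := by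
    funext θ
    rw [h1]
    unfold sineP
    rw [Finset.sum_mul]
    apply Finset.sum_congr rfl
    intro k _
    have e1 : (((k + 2 : ℕ) : ℝ) * θ) = (k + 1 : ℝ) * θ + θ := by push_cast; ring
    have e2 : ((k : ℝ) * θ) = (k + 1 : ℝ) * θ - θ := by ring
    rw [e1, e2, Real.sin_add, Real.sin_sub]
    ring
  rw [this]
  apply isSineP_sum
  intro k _
  exact ((isSineP_sin (k + 2)).const_mul (c k / 2)).add ((isSineP_sin k).const_mul (c k / 2))

lemma isSineP_sin_mul_poly (q : Polynomial ℝ) :
    IsSineP (fun θ => Real.sin θ * q.eval (Real.cos θ)) := by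
  induction q using Polynomial.induction_on' with
  | add p q hp hq =>
    have := hp.add hq
    simpa [mul_add] using this
  | monomial n a =>
    induction n with
    | zero =>
      have := (isSineP_sin 1).const_mul a
      simpa [mul_comm] using this
    | succ n ih =>
      have h1 := ih.mul_cos
      have h2 : (fun θ => Real.sin θ * Polynomial.eval (Real.cos θ) (Polynomial.monomial n a)
        * Real.cos θ) = fun θ => Real.sin θ *
          Polynomial.eval (Real.cos θ) (Polynomial.monomial (n + 1) a) := by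
        funext θ
        simp only [Polynomial.eval_monomial, pow_succ]
        ring
      rwa [h2] at h1

/-- Approximation by sine polynomials. -/
lemma sine_approx {φ : ℝ → ℝ} (hφ : Continuous φ) {ε : ℝ} (hε : 0 < ε) (h0 : |φ 0| < ε)
    (hπ : |φ Real.pi| < ε) :
    ∃ (c : ℕ → ℝ) (K : ℕ), ∀ θ ∈ Icc 0 Real.pi, |φ θ - sineP c K θ| ≤ 2 * ε := by
  -- soft threshold
  let φ₁ : ℝ → ℝ := fun θ => φ θ - max (-ε) (min (φ θ) ε)
  have hφ₁ : Continuous φ₁ := by fun_prop
  have hsmall : ∀ θ, |φ θ| < ε → φ₁ θ = 0 := by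
    intro θ h
    rw [abs_lt] at h
    simp only [φ₁]
    rw [min_eq_left h.2.le, max_eq_right h.1.le, sub_self]
  have hdiff : ∀ θ, |φ θ - φ₁ θ| ≤ ε := by
    intro θ
    simp only [φ₁, sub_sub_cancel]
    rw [abs_le]
    refine ⟨le_max_left _ _, ?_⟩
    apply max_le (by linarith) (min_le_right _ _)
  let Q : ℝ → ℝ := fun x => φ₁ (Real.arccos x) / Real.sin (Real.arccos x)
  have hQ : ContinuousOn Q (Icc (-1) 1) := by
    intro x hx
    by_cases hx1 : |φ (Real.arccos x)| < ε
    · have hev : ∀ᶠ y in 𝓝 x, Q y = 0 := by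
        have hc : Continuous fun y => |φ (Real.arccos y)| :=
          (hφ.comp Real.continuous_arccos).abs
        filter_upwards [hc.continuousAt.eventually_lt continuousAt_const hx1] with y hy
        simp only [Q, hsmall _ hy, zero_div]
      have : ContinuousAt Q x := by
        have h2 : Q =ᶠ[𝓝 x] fun _ => 0 := hev
        exact (continuousAt_const (y := (0:ℝ))).congr h2.symm
      exact this.continuousWithinAt
    · have hne : x ≠ -1 ∧ x ≠ 1 := by
        constructor
        · rintro rfl
          rw [Real.arccos_neg_one] at hx1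
          exact hx1 hπ
        · rintro rfl
          rw [Real.arccos_one] at hx1
          exact hx1 h0
      have hsin : Real.sin (Real.arccos x) ≠ 0 := by
        rw [Real.sin_arccos]
        have h1 : -1 < x := lt_of_le_of_ne hx.1 hne.1.symm
        have h2 : x < 1 := lt_of_le_of_ne hx.2 hne.2
        have : 0 < 1 - x ^ 2 := by nlinarith
        exact (Real.sqrt_pos.2 this).ne'
      apply ContinuousAt.continuousWithinAt
      apply ContinuousAt.div
      · exact (hφ₁.comp Real.continuous_arccos).continuousAt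
      · exact (Real.continuous_sin.comp Real.continuous_arccos).continuousAt
      · exact hsin
  obtain ⟨q, hq⟩ := exists_polynomial_near_of_continuousOn (-1) 1 Q hQ ε hε
  obtain ⟨c, K, hcK⟩ := isSineP_sin_mul_poly q
  refine ⟨c, K, fun θ hθ => ?_⟩
  rw [← hcK]
  have harc : Real.arccos (Real.cos θ) = θ := Real.arccos_cos hθ.1 hθ.2
  have h1 : |φ₁ θ - Real.sin θ * q.eval (Real.cos θ)| ≤ ε := by
    by_cases hs : Real.sin θ = 0
    · have : φ₁ θ = 0 := by
        have h3 := (Real.sin_eq_zero_iff).1 hs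
        obtain ⟨n, hn⟩ := h3
        have hn0 : θ = 0 ∨ θ = Real.pi := by
          rcases hθ with ⟨ha, hb⟩
          rw [← hn] at ha hb
          have hπ' := Real.pi_pos
          have h4 : 0 ≤ n := by
            by_contra hcon
            have : (n : ℝ) ≤ -1 := by exact_mod_cast (by omega : n ≤ -1)
            nlinarith
          have h5 : n ≤ 1 := by
            by_contra hcon
            have : (2 : ℝ) ≤ n := by exact_mod_cast (by omega : 2 ≤ n)
            nlinarith
          interval_cases n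
          · left; simpa using hn.symm
          · right; simpa using hn.symm
        rcases hn0 with rfl | rfl
        · exact hsmall _ h0
        · exact hsmall _ hπ
      rw [this, hs]
      simp [hε.le]
    · have h4 := hq (Real.cos θ) ⟨Real.neg_one_le_cos θ, Real.cos_le_one θ⟩
      simp only [Q, harc] at h4
      have hspos : 0 ≤ Real.sin θ := Real.sin_nonneg_of_nonneg_of_le_pi hθ.1 hθ.2
      have h5 : φ₁ θ - Real.sin θ * q.eval (Real.cos θ)
          = - (Real.sin θ * (q.eval (Real.cos θ) - φ₁ θ / Real.sin θ)) := by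
        field_simp
        ring
      rw [h5, abs_neg, abs_mul, abs_of_nonneg hspos]
      calc Real.sin θ * |q.eval (Real.cos θ) - φ₁ θ / Real.sin θ| ≤ 1 * ε := by
            apply mul_le_mul (Real.sin_le_one θ) h4.le (abs_nonneg _) zero_le_one
        _ = ε := one_mul ε
  calc |φ θ - Real.sin θ * q.eval (Real.cos θ)|
      = |(φ θ - φ₁ θ) + (φ₁ θ - Real.sin θ * q.eval (Real.cos θ))| := by ring_nf
    _ ≤ |φ θ - φ₁ θ| + |φ₁ θ - Real.sin θ * q.eval (Real.cos θ)| := abs_add_le _ _
    _ ≤ 2 * ε := by linarith [hdiff θ]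

lemma abs_sin_nat_mul_le (m : ℕ) {θ : ℝ} (hθ : 0 ≤ Real.sin θ) :
    |Real.sin ((m : ℝ) * θ)| ≤ m * Real.sin θ := by
  induction m with
  | zero => simp
  | succ m ih =>
    have e : ((m + 1 : ℕ) : ℝ) * θ = m * θ + θ := by push_cast; ring
    rw [e, Real.sin_add]
    calc |Real.sin (m * θ) * Real.cos θ + Real.cos (m * θ) * Real.sin θ|
        ≤ |Real.sin (m * θ) * Real.cos θ| + |Real.cos (m * θ) * Real.sin θ| := abs_add_le _ _
      _ ≤ |Real.sin (m * θ)| * 1 + 1 * Real.sin θ := by
          rw [abs_mul, abs_mul, abs_of_nonneg hθ]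
          gcongr
          · exact Real.abs_cos_le_one θ
          · exact Real.abs_cos_le_one _
      _ ≤ ((m + 1 : ℕ) : ℝ) * Real.sin θ := by push_cast; linarith

lemma integral_cos_int_mul (n : ℤ) (hn : n ≠ 0) :
    ∫ θ in (0:ℝ)..Real.pi, Real.cos ((n : ℝ) * θ) = 0 := by
  have hn' : (n : ℝ) ≠ 0 := by exact_mod_cast hn
  rw [intervalIntegral.integral_comp_mul_left (fun x => Real.cos x) hn', integral_cos]
  simp [Real.sin_int_mul_pi]

lemma integral_sin_mul_sin (j k : ℕ) :
    ∫ θ in (0:ℝ)..Real.pi, Real.sin ((j + 1 : ℝ) * θ) * Real.sin ((k + 1 : ℝ) * θ)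
      = if j = k then Real.pi / 2 else 0 := by
  have e : ∀ θ : ℝ, Real.sin ((j + 1 : ℝ) * θ) * Real.sin ((k + 1 : ℝ) * θ)
      = (1 / 2) * Real.cos ((((j : ℤ) - k : ℤ) : ℝ) * θ)
        - (1 / 2) * Real.cos ((((j : ℤ) + k + 2 : ℤ) : ℝ) * θ) := by
    intro θ
    have e1 : (((j : ℤ) - k : ℤ) : ℝ) * θ = (j + 1 : ℝ) * θ - (k + 1 : ℝ) * θ := by
      push_cast; ring
    have e2 : (((j : ℤ) + k + 2 : ℤ) : ℝ) * θ = (j + 1 : ℝ) * θ + (k + 1 : ℝ) * θ := by
      push_cast; ring
    rw [e1, e2, Real.cos_sub, Real.cos_add]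
    ring
  simp_rw [e]
  rw [intervalIntegral.integral_sub (by apply Continuous.intervalIntegrable; fun_prop)
    (by apply Continuous.intervalIntegrable; fun_prop),
    intervalIntegral.integral_const_mul, intervalIntegral.integral_const_mul,
    integral_cos_int_mul ((j : ℤ) + k + 2) (by omega)]
  by_cases h : j = k
  · subst h
    simp
    ring
  · rw [integral_cos_int_mul ((j : ℤ) - k) (by omega)]
    simp [h]

lemma sineP_coeff (c : ℕ → ℝ) (K : ℕ) {k : ℕ} (hk : k ∈ Finset.range (K + 1)) :
    ∫ θ in (0:ℝ)..Real.pi, sineP c K θ * Real.sin ((k + 1 : ℝ) * θ) = Real.pi / 2 * c k := by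
  unfold sineP
  simp_rw [Finset.sum_mul]
  rw [intervalIntegral.integral_finsetSum]
  · have : ∀ j ∈ Finset.range (K + 1),
        ∫ θ in (0:ℝ)..Real.pi, c j * Real.sin ((j + 1 : ℝ) * θ) * Real.sin ((k + 1 : ℝ) * θ)
          = c j * (if j = k then Real.pi / 2 else 0) := by
      intro j _
      simp_rw [mul_assoc]
      rw [intervalIntegral.integral_const_mul, integral_sin_mul_sin]
    rw [Finset.sum_congr rfl this]
    simp only [mul_ite, mul_zero]
    rw [Finset.sum_ite_eq' (Finset.range (K + 1)) k]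
    rw [if_pos hk]
    ring
  · intro j _
    apply Continuous.intervalIntegrable
    fun_prop

lemma continuous_sineP (c : ℕ → ℝ) (K : ℕ) : Continuous (sineP c K) := by
  unfold sineP
  fun_prop

/-- Coefficients of an almost nonnegative sine polynomial. -/
lemma sine_coeff_bound {c : ℕ → ℝ} {K : ℕ} {δ : ℝ}
    (hδ : 0 ≤ δ) (hp : ∀ θ ∈ Icc 0 Real.pi, -δ ≤ sineP c K θ) :
    ∀ k ∈ Finset.range (K + 1), |c k| ≤ (k + 1) * (c 0 + 3 * δ) := by
  intro k hk
  have hπ := Real.pi_pos
  have hcont := continuous_sineP c K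
  have h0 : (0 : ℕ) ∈ Finset.range (K + 1) := by simp
  have hk1 := sineP_coeff c K hk
  have h01 := sineP_coeff c K h0
  have hle : |∫ θ in (0:ℝ)..Real.pi, sineP c K θ * Real.sin ((k + 1 : ℝ) * θ)|
      ≤ ∫ θ in (0:ℝ)..Real.pi, (k + 1 : ℝ) * ((sineP c K θ + 2 * δ) * Real.sin θ) := by
    have h1 : |∫ θ in (0:ℝ)..Real.pi, sineP c K θ * Real.sin ((k + 1 : ℝ) * θ)|
        ≤ ∫ θ in (0:ℝ)..Real.pi, |sineP c K θ * Real.sin ((k + 1 : ℝ) * θ)| :=
      intervalIntegral.abs_integral_le_integral_abs hπ.le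
    refine h1.trans ?_
    apply intervalIntegral.integral_mono_on hπ.le
    · apply Continuous.intervalIntegrable; fun_prop
    · apply Continuous.intervalIntegrable; fun_prop
    · intro θ hθ
      have hs : 0 ≤ Real.sin θ := Real.sin_nonneg_of_nonneg_of_le_pi hθ.1 hθ.2
      have h2 : |Real.sin ((k + 1 : ℝ) * θ)| ≤ (k + 1) * Real.sin θ := by
        have := abs_sin_nat_mul_le (k + 1) hs
        push_cast at this
        exact this
      have h3 : |sineP c K θ| ≤ sineP c K θ + 2 * δ := by
        have := hp θ hθ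
        rw [abs_le]
        constructor <;> linarith
      rw [abs_mul]
      calc |sineP c K θ| * |Real.sin ((k + 1 : ℝ) * θ)|
          ≤ (sineP c K θ + 2 * δ) * ((k + 1) * Real.sin θ) := by
            apply mul_le_mul h3 h2 (abs_nonneg _)
            exact (abs_nonneg _).trans h3
        _ = _ := by ring
  have hR : ∫ θ in (0:ℝ)..Real.pi, (k + 1 : ℝ) * ((sineP c K θ + 2 * δ) * Real.sin θ)
      = (k + 1) * (Real.pi / 2 * c 0 + 4 * δ) := by
    rw [intervalIntegral.integral_const_mul]
    congr 1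
    have : ∀ θ : ℝ, (sineP c K θ + 2 * δ) * Real.sin θ
        = sineP c K θ * Real.sin (((0 : ℕ) + 1 : ℝ) * θ) + 2 * δ * Real.sin θ := by
      intro θ
      simp
      ring
    simp_rw [this]
    rw [intervalIntegral.integral_add (by apply Continuous.intervalIntegrable; fun_prop)
      (by apply Continuous.intervalIntegrable; fun_prop), h01, intervalIntegral.integral_const_mul,
      integral_sin]
    simp
    ring
  rw [hk1, hR, abs_mul, abs_of_pos (by positivity)] at hle
  have hπ3 := Real.pi_gt_three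
  have h5 : Real.pi / 2 * |c k| ≤ Real.pi / 2 * ((k + 1) * (c 0 + 3 * δ)) := by
    refine hle.trans ?_
    have hk0 : (0 : ℝ) ≤ k + 1 := by positivity
    have : Real.pi / 2 * c 0 + 4 * δ ≤ Real.pi / 2 * (c 0 + 3 * δ) := by nlinarith
    calc (k + 1 : ℝ) * (Real.pi / 2 * c 0 + 4 * δ) ≤ (k + 1) * (Real.pi / 2 * (c 0 + 3 * δ)) := by
          gcongr
      _ = _ := by ring
  exact le_of_mul_le_mul_left h5 (by positivity)

end Pool.Agent.Lib.MP_1ca924_an
end
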